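import Pool.Agent.L7h7.HP.Exist

set_option autoImplicit false

open Finset Filter Topology

namespace Pool.Agent.L7h7.HP

theorem s_ALG : S_ALG := by
  intro θ x ρ hp hx hs heq hleaf hloop
  have hxa := sum_xa θ x hx hs
  have hxp : ∀ k, 0 < x k := by
    intro k
    rcases (hx k).eq_or_lt with h | h
    · have h1 := heq k
      rw [← h, mul_zero, zero_mul] at h1
      exact absurd h1.symm (hp k).ne'
    · exact h
  have hh0 := hh_pos θ x hx hs 0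
  have hh1 := hh_pos θ x hx hs 1
  have q0 := heq 0
  have q1 := heq 1
  rw [Fin.sum_univ_two] at hxa hleaf hs
  have hsq : x 0 * (aa θ x 0 - 1 / 2) ^ 2 + x 1 * (aa θ x 1 - 1 / 2) ^ 2 = 0 := by
    rw [← q0, ← q1] at hleaf
    nlinarith
  have x0 := hxp 0
  have x1 := hxp 1
  have s0 : 0 ≤ x 0 * (aa θ x 0 - 1 / 2) ^ 2 := by positivity
  have s1 : 0 ≤ x 1 * (aa θ x 1 - 1 / 2) ^ 2 := by positivity
  have a0 : aa θ x 0 = 1 / 2 := by
    have : x 0 * (aa θ x 0 - 1 / 2) ^ 2 = 0 := by linarith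
    rcases mul_eq_zero.1 this with h | h
    · exact absurd h x0.ne'
    · have := pow_eq_zero_iff (two_ne_zero) |>.1 h
      linarith
  have a1 : aa θ x 1 = 1 / 2 := by
    have : x 1 * (aa θ x 1 - 1 / 2) ^ 2 = 0 := by linarith
    rcases mul_eq_zero.1 this with h | h
    · exact absurd h x1.ne'
    · have := pow_eq_zero_iff (two_ne_zero) |>.1 h
      linarith
  rw [a0] at q0
  rw [a1] at q1
  have e0 : x 0 = θ.pr 0 := by linarith
  have e1 : x 1 = θ.pr 1 := by linarith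
  have hsp : θ.pr 1 = 1 - θ.pr 0 := by linarith
  have p0 := hp 0
  have p1 := hp 1
  have g01 := θ.ga_pos 0 1
  have f0 : hh θ x 0 = θ.ga 0 0 * θ.pr 0 + θ.ga 0 1 * θ.pr 1 := by
    simp [hh, Fin.sum_univ_two, e0, e1]
  have f1 : hh θ x 1 = θ.ga 0 1 * θ.pr 0 + θ.ga 1 1 * θ.pr 1 := by
    simp [hh, Fin.sum_univ_two, e0, e1, θ.ga_symm 1 0]
  have h0n := hh0.ne'
  have h1n := hh1.ne'
  set r := hh θ x 0 with hr
  have k0 : θ.pr 0 * θ.ga 0 0 / (2 * r) + θ.pr 1 * θ.ga 0 1 / (2 * hh θ x 1) = 1 / 2 := by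
    rw [← a0]
    simp only [aa, Fin.sum_univ_two, θ.ga_symm 1 0]
    rfl
  have hu : hh θ x 1 = r := by
    have k1 : θ.pr 0 * θ.ga 0 0 / r + θ.pr 1 * θ.ga 0 1 / hh θ x 1 = 1 := by
      have : θ.pr 0 * θ.ga 0 0 / r + θ.pr 1 * θ.ga 0 1 / hh θ x 1 =
          2 * (θ.pr 0 * θ.ga 0 0 / (2 * r) + θ.pr 1 * θ.ga 0 1 / (2 * hh θ x 1)) := by
        field_simp
      rw [this, k0]
      norm_num
    have k2 : θ.pr 0 * θ.ga 0 0 / r + θ.pr 1 * θ.ga 0 1 / r = 1 := by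
      rw [← add_div, div_eq_one_iff_eq h0n, f0]
      ring
    have k3 : θ.pr 1 * θ.ga 0 1 / hh θ x 1 = θ.pr 1 * θ.ga 0 1 / r := by linarith
    have k4 : θ.pr 1 * θ.ga 0 1 ≠ 0 := (mul_pos p1 g01).ne'
    rw [div_eq_div_iff h1n h0n] at k3
    exact (mul_left_cancel₀ k4 k3).symm
  have k5 : θ.pr 0 * θ.ga 0 0 + θ.pr 1 * θ.ga 1 1 = r * (1 + ρ) := by
    have : θ.pr 0 * θ.ga 0 0 / (2 * r) + θ.pr 1 * θ.ga 1 1 / (2 * r) = (1 + ρ) / 2 := by
      rw [← hloop, Fin.sum_univ_two, hu]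
    rw [← add_div, div_eq_iff (by positivity)] at this
    rw [this]
    ring
  rw [hu] at f1
  have k6 : θ.ga 0 1 = r * (1 - ρ) := by
    have h9 : θ.ga 0 1 * (θ.pr 0 + θ.pr 1) + (θ.pr 0 * θ.ga 0 0 + θ.pr 1 * θ.ga 1 1) = 2 * r := by
      linarith
    rw [k5, hsp] at h9
    linarith
  refine ⟨r, hh0, ?_, k6, ?_⟩
  · have h9 : θ.ga 0 0 * θ.pr 0 = r - r * (1 - ρ) * (1 - θ.pr 0) := by
      rw [← k6, ← hsp]
      linarith
    rw [← mul_right_inj' p0.ne', mul_comm (θ.pr 0) (θ.ga 0 0), h9]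
    field_simp
    ring
  · have h9 : θ.ga 1 1 * (1 - θ.pr 0) = r - r * (1 - ρ) * θ.pr 0 := by
      rw [← k6, ← hsp]
      linarith
    have hq : 1 - θ.pr 0 ≠ 0 := by
      rw [← hsp]
      exact p1.ne'
    rw [← mul_right_inj' hq, mul_comm (1 - θ.pr 0) (θ.ga 1 1), h9]
    field_simp
    ring

end Pool.Agent.L7h7.HP
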