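import Mathlib

/-!
# The hierarchical preferential attachment model: definitions (project HP, problem MP_7e57c2_pr)

The nodes are `0, 1, 2, ...` (the problem starts with `1`). The node `k` links to the node `h k ≤ k`, and `h k = k` is a
loop; the node `0` has a loop.
-/

set_option autoImplicit false

open Finset

namespace Pool.Agent.L7h7.HP

/-- The parameters of the model with `K` labels: a probability vector and a symmetric matrix with positive entries. -/
structure Param (K : ℕ) where
  /-- the distribution of the labels -/
  pr : Fin K → ℝ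
  /-- the affinities -/
  ga : Fin K → Fin K → ℝ
  pr_nonneg : ∀ j, 0 ≤ pr j
  pr_sum : ∑ j, pr j = 1
  ga_pos : ∀ i j, 0 < ga i j
  ga_symm : ∀ i j, ga i j = ga j i

/-- The histories of the first `n` nodes. -/
abbrev Hist (n : ℕ) : Type := (k : Fin n) → Fin (k.val + 1)

/-- The degree of the node `v` after the first `i` nodes have arrived; a loop counts `2`. -/
def deg {n : ℕ} (h : Hist n) (i v : ℕ) : ℕ :=
  (if v < i then 1 else 0) + #{k : Fin n | k.val < i ∧ (h k).val = v}

/-- the node to which the node `k` links -/
def tgt {n : ℕ} (h : Hist n) (k : Fin n) : Fin n :=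
  ⟨(h k).val, lt_of_le_of_lt (Nat.lt_succ_iff.1 (h k).isLt) k.isLt⟩

/-- The normalising sum for a node with label `j` which arrives after the first `i` nodes. -/
noncomputable def den {K n : ℕ} (θ : Param K) (h : Hist n) (l : Fin n → Fin K) (i : ℕ) (j : Fin K) : ℝ :=
  θ.ga j j + ∑ v : Fin n with v.val < i, θ.ga j (l v) * (deg h i v : ℝ)

/-- The probability that the node `k`, which has the label `l k`, links to the node `h k`, given the labels and the
first `k` steps. -/
noncomputable def link {K n : ℕ} (θ : Param K) (h : Hist n) (l : Fin n → Fin K) (k : Fin n) : ℝ :=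
  (if (h k).val = k.val then θ.ga (l k) (l k)
    else θ.ga (l k) (l (tgt h k)) * (deg h k.val (h k).val : ℝ)) / den θ h l k.val (l k)

/-- The probability of the labels `l` and the history `h` of the first `n` nodes. -/
noncomputable def joint {K n : ℕ} (θ : Param K) (h : Hist n) (l : Fin n → Fin K) : ℝ :=
  ∏ k, θ.pr (l k) * link θ h l k

/-- The probability of the history `h` of the first `n` nodes. -/
noncomputable def law {K n : ℕ} (θ : Param K) (h : Hist n) : ℝ := ∑ l : Fin n → Fin K, joint θ h l

/-- expectation of a function of the history and of the labels -/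
noncomputable def Ex {K : ℕ} (θ : Param K) (n : ℕ) (F : Hist n → (Fin n → Fin K) → ℝ) : ℝ :=
  ∑ h : Hist n, ∑ l : Fin n → Fin K, joint θ h l * F h l

/-- the normalising sum for the next node -/
noncomputable def dn {K n : ℕ} (θ : Param K) (h : Hist n) (l : Fin n → Fin K) (j : Fin K) : ℝ :=
  θ.ga j j + ∑ u : Fin n, θ.ga j (l u) * (deg h n u : ℝ)

/-- the probability that the next node, with label `j`, links to the node `v ≤ n` -/
noncomputable def tr {K n : ℕ} (θ : Param K) (h : Hist n) (l : Fin n → Fin K) (j : Fin K) (v : Fin (n + 1)) : ℝ :=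
  (if hv : v.val < n then θ.ga j (l ⟨v.val, hv⟩) * (deg h n v.val : ℝ) else θ.ga j j) / dn θ h l j

/-- one more step of the history -/
def hsn {n : ℕ} (h : Hist n) (v : Fin (n + 1)) : Hist (n + 1) :=
  Fin.snoc (α := fun k : Fin (n + 1) => Fin (k.val + 1)) h v

/-- one more label -/
def lsn {K n : ℕ} (l : Fin n → Fin K) (j : Fin K) : Fin (n + 1) → Fin K :=
  Fin.snoc (α := fun _ : Fin (n + 1) => Fin K) l j

end Pool.Agent.L7h7.HP
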