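import Pool.Agent.L7h7.HP.Snoc

set_option autoImplicit false

open Finset Filter Topology

namespace Pool.Agent.L7h7.HP

theorem hh_pos (θ : Param 2) (x : Fin 2 → ℝ) (hx : ∀ k, 0 ≤ x k) (hs : ∑ k, x k = 1) (l : Fin 2) :
    0 < hh θ x l := by
  unfold hh
  rw [Fin.sum_univ_two] at hs ⊢
  have h0 := hx 0
  have h1 := hx 1
  have g0 := θ.ga_pos l 0
  have g1 := θ.ga_pos l 1
  rcases h0.eq_or_lt with h | h
  · rw [← h, mul_zero, zero_add]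
    exact mul_pos g1 (by linarith)
  · exact add_pos_of_pos_of_nonneg (mul_pos g0 h) (mul_nonneg g1.le h1)

/-- the equation for `k = 1` follows from the one for `k = 0` -/
theorem sum_xa (θ : Param 2) (x : Fin 2 → ℝ) (hx : ∀ k, 0 ≤ x k) (hs : ∑ k, x k = 1) :
    ∑ k, x k * aa θ x k = 1 / 2 := by
  have p0 := (hh_pos θ x hx hs 0).ne'
  have p1 := (hh_pos θ x hx hs 1).ne'
  have e0 : hh θ x 0 = θ.ga 0 0 * x 0 + θ.ga 0 1 * x 1 := by simp [hh, Fin.sum_univ_two]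
  have e1 : hh θ x 1 = θ.ga 1 0 * x 0 + θ.ga 1 1 * x 1 := by simp [hh, Fin.sum_univ_two]
  have hp := θ.pr_sum
  rw [Fin.sum_univ_two] at hp ⊢
  simp only [aa, Fin.sum_univ_two]
  have : x 0 * (θ.pr 0 * θ.ga 0 0 / (2 * hh θ x 0) + θ.pr 1 * θ.ga 1 0 / (2 * hh θ x 1)) +
      x 1 * (θ.pr 0 * θ.ga 0 1 / (2 * hh θ x 0) + θ.pr 1 * θ.ga 1 1 / (2 * hh θ x 1)) =
      (θ.pr 0 * (θ.ga 0 0 * x 0 + θ.ga 0 1 * x 1) / hh θ x 0 +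
      θ.pr 1 * (θ.ga 1 0 * x 0 + θ.ga 1 1 * x 1) / hh θ x 1) / 2 := by
    field_simp
    ring
  rw [this, ← e0, ← e1, mul_div_cancel_right₀ _ p0, mul_div_cancel_right₀ _ p1, hp]

theorem eqs_of_zero (θ : Param 2) (x : Fin 2 → ℝ) (hx : ∀ k, 0 ≤ x k) (hs : ∑ k, x k = 1)
    (h0 : 2 * x 0 * (1 - aa θ x 0) = θ.pr 0) : ∀ k, 2 * x k * (1 - aa θ x k) = θ.pr k := by
  have h1 := sum_xa θ x hx hs
  have hp := θ.pr_sum
  rw [Fin.sum_univ_two] at hp h1 hs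
  intro k
  fin_cases k
  · exact h0
  · show 2 * x 1 * (1 - aa θ x 1) = θ.pr 1
    nlinarith

theorem FF_eq (θ : Param 2) (x : Fin 2 → ℝ) (hx : ∀ k, 0 ≤ x k) (hs : ∑ k, x k = 1) :
    FF (θ.pr 0) (θ.pr 1) (θ.ga 0 0) (θ.ga 0 1) (θ.ga 1 1) (x 0) = θ.pr 0 - 2 * x 0 * (1 - aa θ x 0) := by
  have p0 := (hh_pos θ x hx hs 0).ne'
  have p1 := (hh_pos θ x hx hs 1).ne'
  rw [Fin.sum_univ_two] at hs
  have hx1 : x 1 = 1 - x 0 := by linarith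
  have e0 : hh θ x 0 = θ.ga 0 0 * x 0 + θ.ga 0 1 * (1 - x 0) := by simp [hh, Fin.sum_univ_two, hx1]
  have e1 : hh θ x 1 = θ.ga 0 1 * x 0 + θ.ga 1 1 * (1 - x 0) := by simp [hh, Fin.sum_univ_two, hx1, θ.ga_symm 1 0]
  unfold FF
  rw [← e0, ← e1]
  simp only [aa, Fin.sum_univ_two, θ.ga_symm 1 0]
  field_simp
  ring

theorem s_EXIST (hF : S_FX) (hL : S_LLN) : S_EXIST := by
  intro θ hp
  have hs := θ.pr_sum
  rw [Fin.sum_univ_two] at hs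
  obtain ⟨⟨y, hy0, hy1, hy⟩, -⟩ := hF (θ.pr 0) (θ.pr 1) (θ.ga 0 0) (θ.ga 0 1) (θ.ga 1 1) (hp 0) (hp 1) hs
    (θ.ga_pos 0 0) (θ.ga_pos 0 1) (θ.ga_pos 1 1)
  have hx : ∀ k, 0 ≤ (![y, 1 - y] : Fin 2 → ℝ) k := by
    intro k
    fin_cases k
    · exact hy0.le
    · show 0 ≤ 1 - y
      linarith
  have hs' : ∑ k, (![y, 1 - y] : Fin 2 → ℝ) k = 1 := by
    simp [Fin.sum_univ_two]
  refine ⟨![y, 1 - y], hL θ _ hp hx hs' (eqs_of_zero θ _ hx hs' ?_)⟩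
  have h := FF_eq θ ![y, 1 - y] hx hs'
  have h' : (![y, 1 - y] : Fin 2 → ℝ) 0 = y := rfl
  rw [h', hy] at h
  rw [h']
  linarith

end Pool.Agent.L7h7.HP
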