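import Pool.Agent.L7h7.HP.Stm2

set_option autoImplicit false

open Finset Filter Topology

namespace Pool.Agent.L7h7.HP

theorem FF_form (p q a b c y : ℝ) (hpq : p + q = 1) (h1 : a * y + b * (1 - y) ≠ 0) (h2 : b * y + c * (1 - y) ≠ 0) :
    FF p q a b c y = p * (1 - y) - q * y + p * (y * (1 - y)) * ((a - b) / (a * y + b * (1 - y))) +
      q * (y * (1 - y)) * ((b - c) / (b * y + c * (1 - y))) := by
  unfold FF
  have e1 : a / (a * y + b * (1 - y)) = 1 + (1 - y) * ((a - b) / (a * y + b * (1 - y))) := by
    have h3 : (a - b) / (a * y + b * (1 - y)) * (a * y + b * (1 - y)) = a - b := div_mul_cancel₀ _ h1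
    rw [div_eq_iff h1]
    generalize (a - b) / (a * y + b * (1 - y)) = z at h3 ⊢
    linear_combination -(1 - y) * h3
  have e2 : b / (b * y + c * (1 - y)) = 1 + (1 - y) * ((b - c) / (b * y + c * (1 - y))) := by
    have h3 : (b - c) / (b * y + c * (1 - y)) * (b * y + c * (1 - y)) = b - c := div_mul_cancel₀ _ h2
    rw [div_eq_iff h2]
    generalize (b - c) / (b * y + c * (1 - y)) = z at h3 ⊢
    linear_combination -(1 - y) * h3
  rw [mul_div_assoc p a, mul_div_assoc q b, e1, e2]
  have : q = 1 - p := by linarith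
  rw [this]
  ring

theorem s_FX : S_FX := by
  intro p q a b c hp hq hpq ha hb hc
  have D1 : ∀ y : ℝ, 0 ≤ y → y ≤ 1 → 0 < a * y + b * (1 - y) := by
    intro y h0 h1
    rcases h0.eq_or_lt with h | h
    · rw [← h]
      simpa using hb
    · have : 0 ≤ b * (1 - y) := mul_nonneg hb.le (by linarith)
      have := mul_pos ha h
      linarith
  have D2 : ∀ y : ℝ, 0 ≤ y → y ≤ 1 → 0 < b * y + c * (1 - y) := by
    intro y h0 h1
    rcases h0.eq_or_lt with h | h
    · rw [← h]
      simpa using hc
    · have : 0 ≤ c * (1 - y) := mul_nonneg hc.le (by linarith)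
      have := mul_pos hb h
      linarith
  have F0 : FF p q a b c 0 = p := by
    unfold FF
    ring
  have F1 : FF p q a b c 1 = - q := by
    unfold FF
    have e1 : a * 1 + b * (1 - 1) = a := by ring
    have e2 : b * 1 + c * (1 - 1) = b := by ring
    rw [e1, e2, mul_div_cancel_right₀ _ ha.ne', mul_div_cancel_right₀ _ hb.ne']
    linarith
  refine ⟨?_, ?_⟩
  · have hcont : ContinuousOn (FF p q a b c) (Set.Icc 0 1) := by
      unfold FF
      refine ContinuousOn.sub (ContinuousOn.add continuousOn_const (ContinuousOn.mul continuousOn_id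
        (ContinuousOn.add (ContinuousOn.div continuousOn_const (by fun_prop) ?_)
          (ContinuousOn.div continuousOn_const (by fun_prop) ?_)))) (by fun_prop)
      · intro y hy
        exact (D1 y hy.1 hy.2).ne'
      · intro y hy
        exact (D2 y hy.1 hy.2).ne'
    have hiv := intermediate_value_Icc' (zero_le_one' ℝ) hcont
    have h0 : (0 : ℝ) ∈ Set.Icc (FF p q a b c 1) (FF p q a b c 0) := by
      rw [F0, F1]
      exact ⟨by linarith, hp.le⟩
    obtain ⟨x, hx, hx0⟩ := hiv h0
    have hx0' : x ≠ 0 := by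
      intro h
      rw [h, F0] at hx0
      exact hp.ne' hx0
    have hx1' : x ≠ 1 := by
      intro h
      rw [h, F1] at hx0
      linarith
    exact ⟨x, lt_of_le_of_ne hx.1 (Ne.symm hx0'), lt_of_le_of_ne hx.2 hx1', hx0⟩
  · intro x hx0 hx1 hx
    have hx0' : x ≠ 0 := by
      intro h
      rw [h, F0] at hx
      exact hp.ne' hx
    have hx1' : x ≠ 1 := by
      intro h
      rw [h, F1] at hx
      linarith
    have h0 : 0 < x := lt_of_le_of_ne hx0 (Ne.symm hx0')
    have h1 : x < 1 := lt_of_le_of_ne hx1 hx1'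
    have h1' : 0 < 1 - x := by linarith
    refine ⟨h0, h1, min (p / x) (q / (1 - x)), lt_min (div_pos hp h0) (div_pos hq h1'), ?_⟩
    intro y hy0 hy1
    have d1x := D1 x hx0 hx1
    have d2x := D2 x hx0 hx1
    have d1y := D1 y hy0 hy1
    have d2y := D2 y hy0 hy1
    have fx := FF_form p q a b c x hpq d1x.ne' d2x.ne'
    have fy := FF_form p q a b c y hpq d1y.ne' d2y.ne'
    rw [hx] at fx
    set A := a * x + b * (1 - x) with hA
    set B := b * x + c * (1 - x) with hB
    set A' := a * y + b * (1 - y) with hA'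
    set B' := b * y + c * (1 - y) with hB'
    have g1 : (a - b) / A' = (a - b) / A + (a - b) * ((a - b) * (x - y)) / (A * A') := by
      have : (a - b) * (x - y) = A - A' := by rw [hA, hA']; ring
      rw [this]
      have n1 := d1x.ne'
      have n2 := d1y.ne'
      field_simp
      ring
    have g2 : (b - c) / B' = (b - c) / B + (b - c) * ((b - c) * (x - y)) / (B * B') := by
      have : (b - c) * (x - y) = B - B' := by rw [hB, hB']; ring
      rw [this]
      have n1 := d2x.ne'
      have n2 := d2y.ne'
      field_simp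
      ring
    have hxx : x * (1 - x) * (p * ((a - b) / A) + q * ((b - c) / B)) = q * x - p * (1 - x) := by linarith
    have hH : p * ((a - b) / A) + q * ((b - c) / B) = q / (1 - x) - p / x := by
      have h2 : x * (1 - x) ≠ 0 := (mul_pos h0 h1').ne'
      rw [← mul_right_inj' h2, hxx]
      have := h0.ne'
      have := h1'.ne'
      field_simp
    have fy2 : FF p q a b c y = - (y - x) * (p * (1 - y) / x + q * y / (1 - x) +
        y * (1 - y) * (p * (a - b) ^ 2 / (A * A') + q * (b - c) ^ 2 / (B * B'))) := by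
      rw [fy, g1, g2]
      have e1 : p * (1 - y) - q * y + p * (y * (1 - y)) * ((a - b) / A + (a - b) * ((a - b) * (x - y)) / (A * A')) +
          q * (y * (1 - y)) * ((b - c) / B + (b - c) * ((b - c) * (x - y)) / (B * B')) =
          p * (1 - y) - q * y + y * (1 - y) * (p * ((a - b) / A) + q * ((b - c) / B)) +
          - (y - x) * (y * (1 - y) * (p * (a - b) ^ 2 / (A * A') + q * (b - c) ^ 2 / (B * B'))) := by ring
      rw [e1, hH]
      have e2 : p * (1 - y) - q * y + y * (1 - y) * (q / (1 - x) - p / x) =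
          - (y - x) * (p * (1 - y) / x + q * y / (1 - x)) := by
        have := h0.ne'
        have := h1'.ne'
        field_simp
        ring
      rw [e2]
      ring
    rw [fy2]
    have k1 : 0 ≤ p * (a - b) ^ 2 / (A * A') := by positivity
    have k2 : 0 ≤ q * (b - c) ^ 2 / (B * B') := by positivity
    have k3 : 0 ≤ y * (1 - y) := mul_nonneg hy0 (by linarith)
    have k4 : 0 ≤ y * (1 - y) * (p * (a - b) ^ 2 / (A * A') + q * (b - c) ^ 2 / (B * B')) :=
      mul_nonneg k3 (add_nonneg k1 k2)
    have k5 : min (p / x) (q / (1 - x)) ≤ p * (1 - y) / x + q * y / (1 - x) := by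
      have m1 := min_le_left (p / x) (q / (1 - x))
      have m2 := min_le_right (p / x) (q / (1 - x))
      have m3 : min (p / x) (q / (1 - x)) * (1 - y) ≤ p / x * (1 - y) := mul_le_mul_of_nonneg_right m1 (by linarith)
      have m4 : min (p / x) (q / (1 - x)) * y ≤ q / (1 - x) * y := mul_le_mul_of_nonneg_right m2 hy0
      have m5 : p * (1 - y) / x + q * y / (1 - x) = p / x * (1 - y) + q / (1 - x) * y := by ring
      rw [m5]
      linarith
    have k6 := sq_nonneg (y - x)
    have k7 : (y - x) * (- (y - x) * (p * (1 - y) / x + q * y / (1 - x) +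
        y * (1 - y) * (p * (a - b) ^ 2 / (A * A') + q * (b - c) ^ 2 / (B * B')))) =
        - ((p * (1 - y) / x + q * y / (1 - x) +
        y * (1 - y) * (p * (a - b) ^ 2 / (A * A') + q * (b - c) ^ 2 / (B * B'))) * (y - x) ^ 2) := by ring
    rw [k7, neg_mul, neg_le_neg_iff]
    exact mul_le_mul_of_nonneg_right (by linarith) k6

end Pool.Agent.L7h7.HP
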