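import Pool.Agent.L7h7.HP.Exist

set_option autoImplicit false

open Finset Filter Topology

namespace Pool.Agent.L7h7.HP

theorem bal_pr1 {θ : Param 2} {p ρ : ℝ} (h : IsBal θ p ρ) : θ.pr 1 = 1 - p := by
  have := θ.pr_sum
  rw [Fin.sum_univ_two, h.pr0] at this
  linarith

theorem bal_pos {θ : Param 2} {p ρ : ℝ} (h : IsBal θ p ρ) (k : Fin 2) : 0 < θ.pr k := by
  have hp := h.hp
  have hp' := h.hp'
  fin_cases k
  · show 0 < θ.pr 0
    rw [h.pr0]
    exact hp
  · show 0 < θ.pr 1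
    rw [bal_pr1 h]
    linarith

theorem bal_hh {θ : Param 2} {p ρ : ℝ} (h : IsBal θ p ρ) (l : Fin 2) : hh θ θ.pr l = 1 := by
  have hp := h.hp.ne'
  have hp' : 1 - p ≠ 0 := by have := h.hp'; linarith
  fin_cases l
  · show hh θ θ.pr 0 = 1
    simp only [hh, Fin.sum_univ_two, h.pr0, bal_pr1 h, h.g00, h.g01]
    field_simp
    ring
  · show hh θ θ.pr 1 = 1
    simp only [hh, Fin.sum_univ_two, h.pr0, bal_pr1 h, θ.ga_symm 1 0, h.g01, h.g11]
    field_simp
    ring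

theorem bal_aa {θ : Param 2} {p ρ : ℝ} (h : IsBal θ p ρ) (k : Fin 2) : aa θ θ.pr k = 1 / 2 := by
  have h1 := bal_hh h k
  unfold aa
  simp only [bal_hh h, mul_one]
  rw [← sum_div]
  congr 1
  rw [← h1]
  unfold hh
  refine sum_congr rfl fun l _ => ?_
  rw [θ.ga_symm l k, mul_comm]

theorem bal_loop {θ : Param 2} {p ρ : ℝ} (h : IsBal θ p ρ) :
    ∑ l, θ.pr l * θ.ga l l / (2 * hh θ θ.pr l) = (1 + ρ) / 2 := by
  have hp := h.hp.ne'
  have hp' : 1 - p ≠ 0 := by have := h.hp'; linarith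
  simp only [bal_hh h, mul_one, Fin.sum_univ_two, h.pr0, bal_pr1 h, h.g00, h.g11]
  field_simp
  ring

theorem bal_good (hL : S_LLN) {θ : Param 2} {p ρ : ℝ} (h : IsBal θ p ρ) : Good θ θ.pr := by
  refine hL θ θ.pr (bal_pos h) θ.pr_nonneg θ.pr_sum fun k => ?_
  rw [bal_aa h k]
  ring

theorem loopP_congr {θ θ' : Param 2} (h : ∀ (n : ℕ) (g : Hist n), law θ' g = law θ g) (n : ℕ) :
    loopP θ' n = loopP θ n := by
  unfold loopP
  refine sum_congr rfl fun g _ => ?_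
  rw [h]

theorem leafP_congr {θ θ' : Param 2} (h : ∀ (n : ℕ) (g : Hist n), law θ' g = law θ g) (n : ℕ) :
    leafP θ' n = leafP θ n := by
  unfold leafP
  refine sum_congr rfl fun g _ => ?_
  rw [h]

theorem s_ID (hL : S_LLN) (hE : S_EXIST) (hLo : S_LOOP) (hLe : S_LEAF) (hD : S_DEG) (hT : S_TWO) (hA : S_ALG) :
    S_ID := by
  intro θ p ρ hb
  refine ⟨bal_pos hb, fun θ' hlaw => ?_⟩
  have hp := hb.hp
  have hp1 := hb.hp'
  have hr := hb.hr
  have g1 := hLo θ θ.pr (bal_good hL hb)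
  have g2 := hLe θ θ.pr (bal_good hL hb)
  rw [bal_loop hb] at g1
  have e2 : ∑ k, θ.pr k * aa θ θ.pr k = 1 / 2 := by
    simp only [bal_aa hb]
    rw [← sum_mul, θ.pr_sum, one_mul]
  rw [e2] at g2
  by_cases hpos : ∀ k, 0 < θ'.pr k
  · obtain ⟨x, hx⟩ := hE θ' hpos
    have k1 := hLo θ' x hx
    have k2 := hLe θ' x hx
    simp only [loopP_congr hlaw] at k1
    simp only [leafP_congr hlaw] at k2
    have m1 := tendsto_nhds_unique k1 g1
    have m2 := tendsto_nhds_unique k2 g2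
    obtain ⟨r, hr0, q00, q01, q11⟩ := hA θ' x ρ hpos hx.nn hx.sum hx.eqs m2 m1
    have hs' := θ'.pr_sum
    rw [Fin.sum_univ_two] at hs'
    have hp'0 := hpos 0
    have hp'1 := hpos 1
    have hl := loopP_congr hlaw 1
    have hor := hT.2 θ θ' p (θ'.pr 0) 1 r ρ hr hb.hr' one_pos hr0 hp hp1 hp'0 (by linarith) hb.pr0 rfl
      (by rw [hb.g00, one_mul]) (by rw [hb.g01, one_mul]) (by rw [hb.g11, one_mul]) q00 q01 q11 hl.symm
    rcases hor with h | h
    · refine ⟨Equiv.refl _, r, hr0, fun j => ?_, fun i j => ?_⟩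
      · fin_cases j
        · show θ'.pr 0 = θ.pr 0
          rw [h, hb.pr0]
        · show θ'.pr 1 = θ.pr 1
          rw [bal_pr1 hb]
          linarith
      · rw [h] at q00 q11
        fin_cases i <;> fin_cases j
        · show θ'.ga 0 0 = r * θ.ga 0 0
          rw [q00, hb.g00]
        · show θ'.ga 0 1 = r * θ.ga 0 1
          rw [q01, hb.g01]
        · show θ'.ga 1 0 = r * θ.ga 1 0
          rw [θ'.ga_symm 1 0, θ.ga_symm 1 0, q01, hb.g01]
        · show θ'.ga 1 1 = r * θ.ga 1 1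
          rw [q11, hb.g11]
    · have s0 : (Equiv.swap (0 : Fin 2) 1) 0 = 1 := Equiv.swap_apply_left _ _
      have s1 : (Equiv.swap (0 : Fin 2) 1) 1 = 0 := Equiv.swap_apply_right _ _
      refine ⟨Equiv.swap 0 1, r, hr0, fun j => ?_, fun i j => ?_⟩
      · fin_cases j
        · show θ'.pr 0 = θ.pr ((Equiv.swap (0 : Fin 2) 1) 0)
          rw [s0, h, bal_pr1 hb]
        · show θ'.pr 1 = θ.pr ((Equiv.swap (0 : Fin 2) 1) 1)
          rw [s1, hb.pr0]
          linarith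
      · rw [h] at q00 q11
        have w : 1 - (1 - p) = p := by ring
        rw [w] at q00 q11
        fin_cases i <;> fin_cases j
        · show θ'.ga 0 0 = r * θ.ga ((Equiv.swap (0 : Fin 2) 1) 0) ((Equiv.swap (0 : Fin 2) 1) 0)
          rw [s0, q00, hb.g11]
        · show θ'.ga 0 1 = r * θ.ga ((Equiv.swap (0 : Fin 2) 1) 0) ((Equiv.swap (0 : Fin 2) 1) 1)
          rw [s0, s1, q01, θ.ga_symm 1 0, hb.g01]
        · show θ'.ga 1 0 = r * θ.ga ((Equiv.swap (0 : Fin 2) 1) 1) ((Equiv.swap (0 : Fin 2) 1) 0)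
          rw [s0, s1, θ'.ga_symm 1 0, q01, hb.g01]
        · show θ'.ga 1 1 = r * θ.ga ((Equiv.swap (0 : Fin 2) 1) 1) ((Equiv.swap (0 : Fin 2) 1) 1)
          rw [s1, q11, hb.g00]
  · exfalso
    push Not at hpos
    obtain ⟨k, hk⟩ := hpos
    have hk0 : θ'.pr k = 0 := le_antisymm hk (θ'.pr_nonneg k)
    have k1 := hD θ' k hk0
    simp only [loopP_congr hlaw] at k1
    have := tendsto_nhds_unique k1 g1
    linarith

end Pool.Agent.L7h7.HP
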