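import Pool.Agent.L7h7.HP.Snoc

set_option autoImplicit false

open Finset Filter Topology

namespace Pool.Agent.L7h7.HP

theorem s_LABB : S_LABB := by
  intro ε hε hε'
  have hΦ : 1 ≤ 1 / ε := by
    rw [le_div_iff₀ hε]
    linarith
  refine ⟨1 / ε, hΦ, ?_⟩
  intro θ p ρ hb hp hp2
  have hp0 := hb.hp
  have hp1 := hb.hp'
  have hq : 0 < 1 - p := by linarith
  set s := √((1 - p) / p) with hs
  have hs0 : 0 < s := Real.sqrt_pos.2 (div_pos hq hp0)
  have hs2 : s ^ 2 = (1 - p) / p := Real.sq_sqrt (div_pos hq hp0).le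
  have hs3 : √(p / (1 - p)) = s⁻¹ := by
    rw [hs, ← Real.sqrt_inv, inv_div]
  have e0 : ph p 0 = s := rfl
  have e1 : ph p 1 = - s⁻¹ := by
    show - √(p / (1 - p)) = - s⁻¹
    rw [hs3]
  have pr1 : θ.pr 1 = 1 - p := by
    have := θ.pr_sum
    rw [Fin.sum_univ_two, hb.pr0] at this
    linarith
  have hps : p * s ^ 2 = 1 - p := by
    rw [hs2]
    field_simp
  have hsl : s ≤ 1 / ε := by
    have h1 : s ^ 2 ≤ (1 / ε) ^ 2 := by
      rw [hs2, one_div, inv_pow, div_le_iff₀ hp0]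
      have : 1 ≤ (ε ^ 2)⁻¹ * p := by
        rw [← div_eq_inv_mul, le_div_iff₀ (by positivity)]
        nlinarith
      linarith
    exact le_of_sq_le_sq h1 (by positivity)
  have hsi : s⁻¹ ≤ 1 / ε := by
    have h1 : 1 ≤ s := by
      have : (1 : ℝ) ^ 2 ≤ s ^ 2 := by
        rw [hs2, one_pow, le_div_iff₀ hp0]
        linarith
      exact le_of_sq_le_sq this hs0.le
    exact (inv_le_one_of_one_le₀ h1).trans hΦ
  have hsi0 : 0 < s⁻¹ := inv_pos.2 hs0
  have b0 : |ph p 0| ≤ 1 / ε := by rw [e0, abs_of_pos hs0]; exact hsl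
  have b1 : |ph p 1| ≤ 1 / ε := by rw [e1, abs_neg, abs_of_pos hsi0]; exact hsi
  have hne := hs0.ne'
  have hiv : s⁻¹ ^ 2 = p / (1 - p) := by
    rw [inv_pow, hs2, inv_div]
  refine ⟨⟨θ.pr_nonneg, θ.pr_sum, ?_, ?_, ?_, ?_, hΦ, ?_⟩, ?_⟩
  · rw [Fin.sum_univ_two, hb.pr0, pr1, e0, e1, ← hps]
    field_simp
    ring
  · rw [Fin.sum_univ_two, hb.pr0, pr1, e0, e1, neg_sq, hs2, hiv]
    field_simp
    ring
  · intro j
    fin_cases j
    · show ph p 0 ^ 2 = 1 + (ph p 0 + ph p 1) * ph p 0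
      rw [e0, e1]
      field_simp
      ring
    · show ph p 1 ^ 2 = 1 + (ph p 0 + ph p 1) * ph p 1
      rw [e0, e1]
      field_simp
      ring
  · intro j
    fin_cases j
    · exact b0
    · exact b1
  · calc |ph p 0 + ph p 1| ≤ |ph p 0| + |ph p 1| := abs_add_le _ _
      _ ≤ 2 * (1 / ε) := by linarith
  · intro i j
    fin_cases i <;> fin_cases j
    · show θ.ga 0 0 = 1 + ρ * ph p 0 * ph p 0
      rw [hb.g00, e0, ← hs2]
      ring
    · show θ.ga 0 1 = 1 + ρ * ph p 0 * ph p 1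
      rw [hb.g01, e0, e1]
      field_simp
      ring
    · show θ.ga 1 0 = 1 + ρ * ph p 1 * ph p 0
      rw [θ.ga_symm 1 0, hb.g01, e0, e1]
      field_simp
      ring
    · show θ.ga 1 1 = 1 + ρ * ph p 1 * ph p 1
      rw [hb.g11, e1, ← hiv]
      ring

end Pool.Agent.L7h7.HP
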