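import Pool.Agent.L7h7.HP.Snoc

set_option autoImplicit false

open Finset Filter Topology

namespace Pool.Agent.L7h7.HP

theorem refq_hsn (ρ : ℝ) {n : ℕ} (h : Hist n) (v : Fin (n + 1)) :
    refq ρ (hsn h v) = refq ρ h * ((if v.val = n then 1 + ρ else (deg h n v.val : ℝ)) / (2 * (n : ℝ) + 1 + ρ)) := by
  unfold refq
  rw [Fin.prod_univ_castSucc]
  have h3 : (hsn h v (Fin.last n)).val = v.val := congrArg Fin.val (hsn_last h v)
  congr 1
  · refine prod_congr rfl fun k _ => ?_
    have h2 : (hsn h v k.castSucc).val = (h k).val := congrArg Fin.val (hsn_cs h v k)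
    have h4 : (k.castSucc).val = k.val := rfl
    rw [h2, h4, deg_hsn_le h v k.val _ k.isLt.le]
  · have h4 : (Fin.last n).val = n := rfl
    rw [h3, h4, deg_hsn_le h v n _ le_rfl]

theorem s_REFQ : S_REFQ := by
  intro ρ hρ n
  refine ⟨fun h => ?_, ?_⟩
  · unfold refq
    refine prod_pos fun k _ => div_pos ?_ (by positivity)
    split_ifs with hk
    · linarith
    · have h1 := (h k).isLt
      have : (h k).val < k.val := by omega
      have h2 : 0 < deg h k.val (h k).val := by
        unfold deg
        rw [if_pos this]
        omega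
      exact_mod_cast h2
  · induction n with
    | zero => simp [refq]
    | succ n ih =>
      rw [sum_hist]
      have key : ∀ h : Hist n, ∑ v : Fin (n + 1), refq ρ (hsn h v) = refq ρ h := by
        intro h
        simp only [refq_hsn]
        rw [← mul_sum, ← sum_div, Fin.sum_univ_castSucc]
        have e : ∑ i : Fin n, (if (i.castSucc).val = n then 1 + ρ else (deg h n (i.castSucc).val : ℝ)) = 2 * n := by
          have := deg_sum h
          rw [← Nat.cast_inj (R := ℝ)] at this
          push_cast at this
          rw [← this]
          refine sum_congr rfl fun i _ => ?_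
          have := i.isLt
          rw [if_neg (by simp only [Fin.val_castSucc]; omega)]
          rfl
        rw [e, if_pos (by simp)]
        have : 2 * (n : ℝ) + (1 + ρ) = 2 * n + 1 + ρ := by ring
        rw [this, div_self (by positivity), mul_one]
      rw [sum_congr rfl fun h _ => key h, ih]

theorem s_FACT : S_FACT := by
  intro n
  induction n with
  | zero => intro h; simp
  | succ n ih =>
    intro h'
    obtain ⟨h, v, rfl⟩ : ∃ (h : Hist n) (v : Fin (n + 1)), h' = hsn h v := by
      refine ⟨fun k => h' k.castSucc, h' (Fin.last n), ?_⟩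
      funext k
      refine Fin.lastCases ?_ (fun k => ?_) k
      · rw [hsn_last]
      · rw [hsn_cs]
    rw [Fin.prod_univ_castSucc, Fin.prod_univ_castSucc]
    have h3 : (hsn h v (Fin.last n)).val = v.val := congrArg Fin.val (hsn_last h v)
    have h4 : (Fin.last n).val = n := rfl
    rw [h3, h4]
    have e1 : ∀ k : Fin n, (if (hsn h v k.castSucc).val = (k.castSucc).val then (1 : ℝ) else
        (deg (hsn h v) (k.castSucc).val (hsn h v k.castSucc).val : ℝ)) =
        if (h k).val = k.val then (1 : ℝ) else (deg h k.val (h k).val : ℝ) := by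
      intro k
      have h2 : (hsn h v k.castSucc).val = (h k).val := congrArg Fin.val (hsn_cs h v k)
      have h5 : (k.castSucc).val = k.val := rfl
      rw [h2, h5, deg_hsn_le h v k.val _ k.isLt.le]
    rw [prod_congr rfl fun k _ => e1 k, ← ih h, deg_hsn_succ h v n le_rfl, deg_self, deg_hsn_le h v n _ le_rfl]
    have e2 : ∀ k : Fin n, deg (hsn h v) (n + 1) (k.castSucc).val = deg h n k.val + if k.val = v.val then 1 else 0 := by
      intro k
      have h5 : (k.castSucc).val = k.val := rfl
      have := k.isLt
      rw [h5, deg_hsn_succ h v k.val (by omega), if_neg (by omega : ¬ k.val = n), add_zero]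
    simp only [e2]
    have e3 : ((0 + (if n = v.val then 1 else 0) + (if n = n then 1 else 0) - 1 : ℕ).factorial : ℝ) = 1 := by
      split_ifs <;> simp_all
    rw [if_pos (rfl : n = n)] at e3
    rw [if_pos trivial, e3, mul_one]
    by_cases hv : v.val = n
    · rw [if_pos hv, mul_one]
      refine prod_congr rfl fun k _ => ?_
      have := k.isLt
      rw [if_neg (by omega), add_zero]
    · rw [if_neg hv]
      have hvl : v.val < n := by have := v.isLt; omega
      rw [← mul_prod_erase univ _ (mem_univ (⟨v.val, hvl⟩ : Fin n)),
        ← mul_prod_erase univ (fun w : Fin n => ((deg h n w.val - 1).factorial : ℝ)) (mem_univ (⟨v.val, hvl⟩ : Fin n))]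
      have e4 : ∀ k ∈ univ.erase (⟨v.val, hvl⟩ : Fin n),
          ((deg h n k.val + (if k.val = v.val then 1 else 0) - 1).factorial : ℝ) = ((deg h n k.val - 1).factorial : ℝ) := by
        intro k hk
        have : ¬ k.val = v.val := fun h6 => (mem_erase.1 hk).1 (Fin.ext h6)
        rw [if_neg this, add_zero]
      rw [prod_congr rfl e4]
      have hd : 0 < deg h n v.val := by
        unfold deg
        rw [if_pos hvl]
        omega
      have e5 : ((deg h n v.val + (if v.val = v.val then 1 else 0) - 1).factorial : ℝ) =
          (deg h n v.val : ℝ) * ((deg h n v.val - 1).factorial : ℝ) := by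
        rw [if_pos rfl, Nat.add_sub_cancel, ← Nat.mul_factorial_pred hd.ne']
        push_cast
        rfl
      show ((deg h n v.val + (if v.val = v.val then 1 else 0) - 1).factorial : ℝ) * _ = _
      rw [e5]
      ring

end Pool.Agent.L7h7.HP
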