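import Pool.Agent.L7h7.HP.Tv
import Pool.Agent.L7h7.HP.Refq

/-!
# The likelihood of the problem, estimators, consistency in probability and almost surely
-/

set_option autoImplicit false

open Finset Filter Topology MeasureTheory

namespace Pool.Agent.L7h7.HP

/-- `N^i_j`: the summed degree of the nodes with the label `j` after the first `i` nodes have arrived. -/
def Nd {K n : ℕ} (h : Hist n) (l : Fin n → Fin K) (i : ℕ) (j : Fin K) : ℕ :=
  ∑ v : Fin n with v.val < i ∧ l v = j, deg h i v.val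

/-- `D_k(l) = γ_(l_k l_k) + ∑_j γ_(l_k j) N^(k-1)_j` -/
noncomputable def Dk {K n : ℕ} (θ : Param K) (h : Hist n) (l : Fin n → Fin K) (k : Fin n) : ℝ :=
  θ.ga (l k) (l k) + ∑ j : Fin K, θ.ga (l k) j * (Nd h l k.val j : ℝ)

/-- `L_n(l) = ∏_v (d(v) - 1)! ∏_k π_(l_k) γ_(l_k t_k) / D_k(l)` -/
noncomputable def Ln {K n : ℕ} (θ : Param K) (h : Hist n) (l : Fin n → Fin K) : ℝ :=
  (∏ v : Fin n, ((deg h n v.val - 1).factorial : ℝ)) *
    ∏ k : Fin n, θ.pr (l k) * θ.ga (l k) (l (tgt h k)) / Dk θ h l k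

/-- `G_n = ∑_l L_n(l)`, the marginal likelihood of the observed history `h` -/
noncomputable def Gn {K n : ℕ} (θ : Param K) (h : Hist n) : ℝ := ∑ l : Fin n → Fin K, Ln θ h l

theorem Dk_eq {K n : ℕ} (θ : Param K) (h : Hist n) (l : Fin n → Fin K) (k : Fin n) :
    Dk θ h l k = den θ h l k.val (l k) := by
  unfold Dk den Nd
  congr 1
  push_cast
  simp only [mul_sum]
  rw [← sum_fiberwise_of_maps_to (g := l) (t := univ) (fun _ _ => mem_univ _)]
  refine sum_congr rfl fun j _ => ?_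
  rw [filter_filter]
  refine sum_congr rfl fun v hv => ?_
  rw [(mem_filter.1 hv).2.2]

theorem Ln_eq {K n : ℕ} (θ : Param K) (h : Hist n) (l : Fin n → Fin K) : Ln θ h l = joint θ h l := by
  unfold Ln joint
  rw [s_FACT h, ← prod_mul_distrib]
  refine prod_congr rfl fun k _ => ?_
  rw [Dk_eq]
  unfold link
  by_cases hk : (h k).val = k.val
  · have ht : tgt h k = k := Fin.ext hk
    rw [if_pos hk, if_pos hk, ht]
    ring
  · rw [if_neg hk, if_neg hk]
    ring

theorem Gn_eq {K n : ℕ} (θ : Param K) (h : Hist n) : Gn θ h = law θ h :=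
  sum_congr rfl fun l _ => Ln_eq θ h l

/-- An estimator: for each `n` an arbitrary function of the history of the first `n` nodes, with values in the pairs of
a real vector and a real matrix. -/
abbrev Est (K : ℕ) : Type := ∀ n : ℕ, Hist n → (Fin K → ℝ) × (Fin K → Fin K → ℝ)

/-- The value `a` of an estimator is `δ`-close to the orbit of `θ` under relabelling and scaling. -/
def Close {K : ℕ} (δ : ℝ) (a : (Fin K → ℝ) × (Fin K → Fin K → ℝ)) (θ : Param K) : Prop :=
  ∃ (σ : Equiv.Perm (Fin K)) (c : ℝ), 0 < c ∧ (∀ j, |a.1 (σ j) - θ.pr j| ≤ δ) ∧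
    ∀ i j, |c * a.2 (σ i) (σ j) - θ.ga i j| ≤ δ

open Classical in
/-- The estimator converges in probability, for data from `θ`, to `θ` modulo relabelling and scaling. -/
def ConvProb {K : ℕ} (T : Est K) (θ : Param K) : Prop :=
  ∀ δ : ℝ, 0 < δ → Tendsto (fun n : ℕ => ∑ h : Hist n, if Close δ (T n h) θ then 0 else Gn θ h) atTop (𝓝 0)

/-- the infinite histories -/
abbrev IHist : Type := (k : ℕ) → Fin (k + 1)

/-- the history of the first `n` nodes -/
def res (n : ℕ) (x : IHist) : Hist n := fun k => x k.val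

/-- `X` is a random history of the model with the parameter `θ`, on a probability space. -/
structure IsHPAM {K : ℕ} (θ : Param K) {Ω : Type} [MeasurableSpace Ω] (μ : Measure Ω) (X : Ω → IHist) : Prop where
  prob : IsProbabilityMeasure μ
  meas : ∀ (n : ℕ) (h : Hist n), MeasurableSet {ω | res n (X ω) = h}
  law : ∀ (n : ℕ) (h : Hist n), μ {ω | res n (X ω) = h} = ENNReal.ofReal (Gn θ h)

/-- The estimator converges along the random history `X` almost surely to `θ` modulo relabelling and scaling. -/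
def ConvAS {K : ℕ} (T : Est K) (θ : Param K) {Ω : Type} [MeasurableSpace Ω] (μ : Measure Ω) (X : Ω → IHist) : Prop :=
  ∀ᵐ ω ∂μ, ∀ δ : ℝ, 0 < δ → ∀ᶠ n in atTop, Close δ (T n (res n (X ω))) θ

/-- The estimator is a maximum likelihood estimator: a maximiser of `G_n` whenever there is one. -/
def IsMLE {K : ℕ} (T : Est K) : Prop :=
  ∀ (n : ℕ) (h : Hist n), (∃ τ : Param K, ∀ τ' : Param K, Gn τ' h ≤ Gn τ h) →
    ∃ τ : Param K, T n h = (τ.pr, τ.ga) ∧ ∀ τ' : Param K, Gn τ' h ≤ Gn τ h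

/-- The parameter is identifiable: all labels have positive probability, and every parameter with the same law of the
observed history for all `n` arises by relabelling and scaling. -/
def IsIdentifiable {K : ℕ} (θ : Param K) : Prop :=
  (∀ j, 0 < θ.pr j) ∧ ∀ θ' : Param K, (∀ (n : ℕ) (h : Hist n), Gn θ' h = Gn θ h) →
    ∃ (σ : Equiv.Perm (Fin K)) (c : ℝ), 0 < c ∧ (∀ j, θ'.pr j = θ.pr (σ j)) ∧ ∀ i j, θ'.ga i j = c * θ.ga (σ i) (σ j)

theorem isIdentifiable_iff {K : ℕ} (θ : Param K) : IsIdentifiable θ ↔ Identifiable θ := by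
  unfold IsIdentifiable Identifiable
  simp only [Gn_eq]

theorem close_prod {δ : ℝ} (hδ : 0 ≤ δ) (hδ1 : δ ≤ 1) {a : (Fin 2 → ℝ) × (Fin 2 → Fin 2 → ℝ)} {θ : Param 2}
    (h : Close δ a θ) : |a.1 0 * a.1 1 - θ.pr 0 * θ.pr 1| ≤ 3 * δ := by
  obtain ⟨σ, c, -, h1, -⟩ := h
  have hs' := θ.pr_sum
  have m0 := θ.pr_nonneg 0
  have m1 := θ.pr_nonneg 1
  rw [Fin.sum_univ_two] at hs'
  have e : a.1 0 * a.1 1 = a.1 (σ 0) * a.1 (σ 1) := by
    have h2 : σ 0 ≠ σ 1 := fun h => absurd (σ.injective h) (by decide)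
    have h3 : (σ 0 = 0 ∧ σ 1 = 1) ∨ (σ 0 = 1 ∧ σ 1 = 0) := by
      revert h2
      generalize σ 0 = x
      generalize σ 1 = y
      revert x y
      decide
    rcases h3 with ⟨a, b⟩ | ⟨a, b⟩
    · rw [a, b]
    · rw [a, b, mul_comm]
  rw [e]
  have g0 := h1 0
  have g1 := h1 1
  set x := a.1 (σ 0)
  set y := a.1 (σ 1)
  have e2 : x * y - θ.pr 0 * θ.pr 1 = (x - θ.pr 0) * y + θ.pr 0 * (y - θ.pr 1) := by ring
  have hy : |y| ≤ 2 := by
    have : y = (y - θ.pr 1) + θ.pr 1 := by ring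
    rw [this]
    refine (abs_add_le _ _).trans ?_
    rw [abs_of_nonneg m1]
    linarith
  have hp0 : |θ.pr 0| ≤ 1 := by
    rw [abs_of_nonneg m0]
    linarith
  rw [e2]
  calc |(x - θ.pr 0) * y + θ.pr 0 * (y - θ.pr 1)| ≤ |(x - θ.pr 0) * y| + |θ.pr 0 * (y - θ.pr 1)| := abs_add_le _ _
    _ = |x - θ.pr 0| * |y| + |θ.pr 0| * |y - θ.pr 1| := by rw [abs_mul, abs_mul]
    _ ≤ δ * 2 + 1 * δ := add_le_add (mul_le_mul g0 hy (abs_nonneg _) hδ) (mul_le_mul hp0 g1 (abs_nonneg _) zero_le_one)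
    _ = 3 * δ := by ring

open Classical in
/-- the sum of the error probabilities at two parameters whose laws are close -/
theorem err_sum {θ θ' : Param 2} {δ : ℝ} (hδ : 0 < δ) (hδ1 : δ ≤ 1)
    (hδD : 7 * δ ≤ |θ.pr 0 * θ.pr 1 - θ'.pr 0 * θ'.pr 1|)
    (tv : ∀ n : ℕ, ∑ h : Hist n, |law θ h - law θ' h| ≤ 1 / 2) (T : Est 2) (n : ℕ) :
    (1 / 2 : ℝ) ≤ (∑ h : Hist n, if Close δ (T n h) θ then 0 else Gn θ h) +
      ∑ h : Hist n, if Close δ (T n h) θ' then 0 else Gn θ' h := by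
  set D := |θ.pr 0 * θ.pr 1 - θ'.pr 0 * θ'.pr 1| with hDd
  have hdis : ∀ a : (Fin 2 → ℝ) × (Fin 2 → Fin 2 → ℝ), Close δ a θ → ¬ Close δ a θ' := by
    intro a g1 g2
    have a1 := close_prod hδ.le hδ1 g1
    have a2 := close_prod hδ.le hδ1 g2
    have : D ≤ 3 * δ + 3 * δ := by
      rw [hDd]
      have : θ.pr 0 * θ.pr 1 - θ'.pr 0 * θ'.pr 1 =
          (a.1 0 * a.1 1 - θ'.pr 0 * θ'.pr 1) - (a.1 0 * a.1 1 - θ.pr 0 * θ.pr 1) := by
        ring
      rw [this]
      exact (abs_sub _ _).trans (add_le_add a2 a1)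
    linarith
  simp only [Gn_eq]
  have h4 := law_sum θ n
  have h5 : ∀ h : Hist n, law θ h ≤ (if Close δ (T n h) θ then 0 else law θ h) +
      (if Close δ (T n h) θ' then 0 else law θ' h) + |law θ h - law θ' h| := by
    intro h
    have p1 := law_nonneg θ h
    have p2 := law_nonneg θ' h
    have p3 := le_abs_self (law θ h - law θ' h)
    have p4 := abs_nonneg (law θ h - law θ' h)
    by_cases h6 : Close δ (T n h) θ
    · rw [if_pos h6, if_neg (hdis _ h6)]
      linarith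
    · rw [if_neg h6]
      split_ifs <;> linarith
  have h6 := sum_le_sum fun h (_ : h ∈ (univ : Finset (Hist n))) => h5 h
  rw [sum_add_distrib, sum_add_distrib, h4] at h6
  have h7 := tv n
  linarith

/-- no consistent estimator at two parameters whose laws are close -/
theorem not_both {θ θ' : Param 2} (hne : θ.pr 0 * θ.pr 1 ≠ θ'.pr 0 * θ'.pr 1)
    (tv : ∀ n : ℕ, ∑ h : Hist n, |law θ h - law θ' h| ≤ 1 / 2) (T : Est 2) :
    ¬ (ConvProb T θ ∧ ConvProb T θ') := by
  rintro ⟨c1, c2⟩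
  have hDp : 0 < |θ.pr 0 * θ.pr 1 - θ'.pr 0 * θ'.pr 1| := abs_pos.2 (sub_ne_zero.2 hne)
  set δ := min 1 (|θ.pr 0 * θ.pr 1 - θ'.pr 0 * θ'.pr 1| / 7) with hδd
  have hδ : 0 < δ := lt_min one_pos (by positivity)
  have hδ1 : δ ≤ 1 := min_le_left _ _
  have hδD : δ ≤ |θ.pr 0 * θ.pr 1 - θ'.pr 0 * θ'.pr 1| / 7 := min_le_right _ _
  have hlim := (c1 δ hδ).add (c2 δ hδ)
  rw [add_zero] at hlim
  have := ge_of_tendsto hlim (Eventually.of_forall (err_sum hδ hδ1 (by linarith) tv T))
  linarith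

/-- almost sure convergence implies convergence in probability -/
theorem ConvProb_of_AS {K : ℕ} (T : Est K) (θ : Param K) {Ω : Type} [MeasurableSpace Ω] (μ : Measure Ω)
    (X : Ω → IHist) (hX : IsHPAM θ μ X) (hT : ConvAS T θ μ X) : ConvProb T θ := by
  classical
  have := hX.prob
  intro δ hδ
  set B : ℕ → Set Ω := fun n => {ω | ¬ Close δ (T n (res n (X ω))) θ} with hB
  have hBu : ∀ n, B n = ⋃ h ∈ (univ.filter fun h : Hist n => ¬ Close δ (T n h) θ), {ω | res n (X ω) = h} := by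
    intro n
    ext ω
    simp [hB]
  have hBm : ∀ n, MeasurableSet (B n) := by
    intro n
    rw [hBu n]
    exact Finset.measurableSet_biUnion _ fun h _ => hX.meas n h
  have hlim : Tendsto (fun n => μ (B n)) atTop (𝓝 (μ ∅)) := by
    refine tendsto_measure_of_ae_tendsto_indicator_of_isFiniteMeasure atTop MeasurableSet.empty hBm ?_
    filter_upwards [hT] with ω hω
    filter_upwards [hω δ hδ] with n hn
    simp [hB, hn]
  rw [measure_empty] at hlim
  have hval : ∀ n, μ (B n) = ENNReal.ofReal (∑ h : Hist n, if Close δ (T n h) θ then 0 else Gn θ h) := by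
    intro n
    rw [hBu n, measure_biUnion_finset]
    · rw [sum_congr rfl fun h _ => hX.law n h, ← ENNReal.ofReal_sum_of_nonneg fun h _ => by
        rw [Gn_eq]; exact law_nonneg θ h]
      congr 1
      rw [sum_filter]
      refine sum_congr rfl fun h _ => ?_
      by_cases hc : Close δ (T n h) θ
      · rw [if_pos hc, if_neg (not_not.2 hc)]
      · rw [if_neg hc, if_pos hc]
    · intro h1 _ h2 _ hne
      rw [Function.onFun, Set.disjoint_left]
      intro ω e1 e2
      exact hne (e1.symm.trans e2)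
    · intro h _
      exact hX.meas n h
  have hnn : ∀ n, 0 ≤ ∑ h : Hist n, if Close δ (T n h) θ then 0 else Gn θ h := by
    intro n
    refine sum_nonneg fun h _ => ?_
    split_ifs
    · exact le_rfl
    · rw [Gn_eq]
      exact law_nonneg θ h
  have h2 := (ENNReal.tendsto_toReal ENNReal.zero_ne_top).comp hlim
  refine h2.congr fun n => ?_
  simp only [Function.comp]
  rw [hval n, ENNReal.toReal_ofReal (hnn n)]

end Pool.Agent.L7h7.HP
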