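import Pool.Agent.L7h7.HP.Tv

set_option autoImplicit false

open Finset Filter Topology

namespace Pool.Agent.L7h7.HP

theorem sum_deg_phi_bd {n : ℕ} (h : Hist n) (g : Fin n → ℝ) (B : ℝ) (hg : ∀ v, |g v| ≤ B) :
    |∑ v : Fin n, (deg h n v.val : ℝ) * g v| ≤ 2 * n * B := by
  calc |∑ v : Fin n, (deg h n v.val : ℝ) * g v| ≤ ∑ v : Fin n, |(deg h n v.val : ℝ) * g v| := abs_sum_le_sum_abs _ _
    _ ≤ ∑ v : Fin n, (deg h n v.val : ℝ) * B := by
        refine sum_le_sum fun v _ => ?_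
        rw [abs_mul, abs_of_nonneg (Nat.cast_nonneg _ : (0 : ℝ) ≤ deg h n v.val)]
        exact mul_le_mul_of_nonneg_left (hg v) (Nat.cast_nonneg _)
    _ = 2 * n * B := by
        rw [← sum_mul]
        congr 1
        have := deg_sum h
        exact_mod_cast this

theorem XX_bd {π φ : Fin 2 → ℝ} {κ Φ : ℝ} (hl : Lab π φ κ Φ) {n : ℕ} (h : Hist n) (l l' : Fin n → Fin 2) (k : Fin 3) :
    |XX φ h l l' k| ≤ 2 * Φ ^ 2 * n := by
  have h1 := hl.one
  have hn : (0 : ℝ) ≤ n := Nat.cast_nonneg _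
  have hb : Φ ≤ Φ ^ 2 := by nlinarith
  fin_cases k
  · have := sum_deg_phi_bd h (fun v => φ (l v)) Φ (fun v => hl.bd _)
    show |∑ v : Fin n, (deg h n v.val : ℝ) * φ (l v)| ≤ _
    nlinarith
  · have := sum_deg_phi_bd h (fun v => φ (l' v)) Φ (fun v => hl.bd _)
    show |∑ v : Fin n, (deg h n v.val : ℝ) * φ (l' v)| ≤ _
    nlinarith
  · have := sum_deg_phi_bd h (fun v => φ (l v) * φ (l' v)) (Φ ^ 2) (fun v => by
      rw [abs_mul, sq]
      exact mul_le_mul (hl.bd _) (hl.bd _) (abs_nonneg _) (by linarith))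
    show |∑ v : Fin n, (deg h n v.val : ℝ) * (φ (l v) * φ (l' v))| ≤ _
    nlinarith

theorem inc_bd {π φ : Fin 2 → ℝ} {κ Φ : ℝ} (hl : Lab π φ κ Φ) {I : Type} (f f' : I → Fin 2) (j j' : Fin 2)
    (x : Option I) (k : Fin 3) : |inc φ f f' j j' x k| ≤ 2 * Φ ^ 2 := by
  have h1 := hl.one
  have hb : Φ ≤ Φ ^ 2 := by nlinarith
  have pr : ∀ a b, |φ a * φ b| ≤ Φ ^ 2 := fun a b => by
    rw [abs_mul, sq]
    exact mul_le_mul (hl.bd _) (hl.bd _) (abs_nonneg _) (by linarith)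
  rcases x with _ | v
  · fin_cases k
    · show |2 * φ j| ≤ _
      rw [abs_mul, abs_two]
      have := hl.bd j
      linarith
    · show |2 * φ j'| ≤ _
      rw [abs_mul, abs_two]
      have := hl.bd j'
      linarith
    · show |2 * (φ j * φ j')| ≤ _
      rw [abs_mul, abs_two]
      have := pr j j'
      linarith
  · fin_cases k
    · show |φ j + φ (f v)| ≤ _
      have := hl.bd j
      have := hl.bd (f v)
      exact (abs_add_le _ _).trans (by linarith)
    · show |φ j' + φ (f' v)| ≤ _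
      have := hl.bd j'
      have := hl.bd (f' v)
      exact (abs_add_le _ _).trans (by linarith)
    · show |φ j * φ j' + φ (f v) * φ (f' v)| ≤ _
      have := pr j j'
      have := pr (f v) (f' v)
      exact (abs_add_le _ _).trans (by linarith)

/-- the test function -/
noncomputable def GG (ρ : ℝ) (n : ℕ) (Y : Fin 3 → ℝ) : ℝ := Real.exp (ρ * (∑ k, |Y k| ^ 3) / (n : ℝ) ^ 2)

theorem WW_one (θ : Param 2) (ρ : ℝ) (φ : Fin 2 → ℝ) (n : ℕ) :
    WW θ ρ φ n (fun _ => 1) = ∑ h : Hist n, law θ h ^ 2 / refq ρ h := by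
  unfold WW law
  refine sum_congr rfl fun h _ => ?_
  rw [sq, sum_mul_sum, sum_div]
  refine sum_congr rfl fun l _ => ?_
  rw [sum_div]
  refine sum_congr rfl fun l' _ => ?_
  rw [mul_one]

theorem WW_mono (hRQ : S_REFQ) (θ : Param 2) {ρ : ℝ} (hρ : 0 < ρ) (φ : Fin 2 → ℝ) (n : ℕ) (G G' : (Fin 3 → ℝ) → ℝ)
    (h : ∀ (g : Hist n) (l l' : Fin n → Fin 2), G (XX φ g l l') ≤ G' (XX φ g l l')) : WW θ ρ φ n G ≤ WW θ ρ φ n G' := by
  unfold WW
  refine sum_le_sum fun g _ => sum_le_sum fun l _ => sum_le_sum fun l' _ => ?_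
  exact mul_le_mul_of_nonneg_left (h g l l')
    (div_nonneg (mul_nonneg (joint_nonneg _ _ _) (joint_nonneg _ _ _)) ((hRQ ρ hρ n).1 g).le)

theorem WW_smul (θ : Param 2) (ρ : ℝ) (φ : Fin 2 → ℝ) (n : ℕ) (G : (Fin 3 → ℝ) → ℝ) (c : ℝ) :
    WW θ ρ φ n (fun Y => G Y * c) = WW θ ρ φ n G * c := by
  unfold WW
  simp only [sum_mul, mul_assoc]

theorem series_step (n : ℕ) (hn : 1 ≤ n) : 1 / ((n : ℝ) * √n) ≤ 4 * (1 / √n - 1 / √((n : ℝ) + 1)) := by
  have hn' : (1 : ℝ) ≤ n := by exact_mod_cast hn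
  set a := √(n : ℝ) with ha
  set b := √((n : ℝ) + 1) with hb
  have ha2 : a ^ 2 = n := Real.sq_sqrt (by linarith)
  have hb2 : b ^ 2 = n + 1 := Real.sq_sqrt (by linarith)
  have ha0 : 0 < a := Real.sqrt_pos.2 (by linarith)
  have hb0 : 0 < b := Real.sqrt_pos.2 (by linarith)
  have hab : a ≤ b := Real.sqrt_le_sqrt (by linarith)
  rw [← ha2]
  have e : 4 * (1 / a - 1 / b) = 4 / (a * b * (a + b)) := by
    have : (b - a) * (a + b) = 1 := by nlinarith
    have hne : a + b ≠ 0 := by positivity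
    rw [div_sub_div _ _ ha0.ne' hb0.ne', mul_div_assoc', div_eq_div_iff (by positivity) (by positivity)]
    have h3 : 4 * (1 * b - a * 1) * (a * b * (a + b)) = 4 * ((b - a) * (a + b)) * (a * b) := by ring
    rw [h3, this, mul_one]
  rw [e, div_le_div_iff₀ (by positivity) (by positivity), one_mul]
  have h1 : b * (a + b) ≤ 4 * a ^ 2 := by nlinarith
  calc a * b * (a + b) = a * (b * (a + b)) := by ring
    _ ≤ a * (4 * a ^ 2) := mul_le_mul_of_nonneg_left h1 ha0.le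
    _ = 4 * (a ^ 2 * a) := by ring

theorem s_SM (hM : S_MASS) (hD : S_DRIFT) (hC : S_COMB) (hR : S_REC) (hRQ : S_REFQ) : S_SM := by
  intro Φ hΦ
  obtain ⟨ρ₁, A₁, p1, a1, hM⟩ := hM Φ hΦ
  obtain ⟨ρ₂, A₂, p2, a2, hD⟩ := hD Φ hΦ
  have hb1 : (1 : ℝ) ≤ 2 * Φ ^ 2 := by nlinarith
  obtain ⟨ρ₃, C, p3, c0, hC⟩ := hC (2 * Φ ^ 2) (max A₁ A₂) hb1 (a1.trans (le_max_left _ _))
  refine ⟨min ρ₁ (min ρ₂ ρ₃), 4 * C + 3 * (2 * Φ ^ 2) ^ 3, lt_min p1 (lt_min p2 p3), by positivity, ?_⟩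
  intro θ ρ κ φ hρ hρ0 hl hg n
  have r1 : ρ ≤ ρ₁ := hρ0.trans (min_le_left _ _)
  have r2 : ρ ≤ ρ₂ := (hρ0.trans (min_le_right _ _)).trans (min_le_left _ _)
  have r3 : ρ ≤ ρ₃ := (hρ0.trans (min_le_right _ _)).trans (min_le_right _ _)
  -- one step
  have step : ∀ m : ℕ, 1 ≤ m → WW θ ρ φ (m + 1) (GG ρ (m + 1)) ≤
      WW θ ρ φ m (GG ρ m) * Real.exp (C * ρ / ((m : ℝ) * √m)) := by
    intro m hm
    rw [hR θ ρ κ Φ φ hρ hl hg m (GG ρ (m + 1)), ← WW_smul]
    unfold WW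
    refine sum_le_sum fun h _ => sum_le_sum fun l _ => sum_le_sum fun l' _ => ?_
    refine mul_le_mul_of_nonneg_left ?_
      (div_nonneg (mul_nonneg (joint_nonneg _ _ _) (joint_nonneg _ _ _)) ((hRQ ρ hρ m).1 h).le)
    have hds : ∑ v : Fin m, (deg h m v.val : ℝ) = 2 * m := by
      have := deg_sum h
      exact_mod_cast this
    have M := hM θ.pr φ κ hl ρ hρ r1 m hm (Fin m) (fun v => (deg h m v.val : ℝ)) l l' (fun v => Nat.cast_nonneg _) hds
    obtain ⟨D0, D⟩ := hD θ.pr φ κ hl ρ hρ r2 m hm (Fin m) (fun v => (deg h m v.val : ℝ)) l l'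
      (fun v => Nat.cast_nonneg _) hds
    have hX : vec φ (fun v : Fin m => (deg h m v.val : ℝ)) l l' = XX φ h l l' := rfl
    rw [hX] at M D0 D
    have hs3 : 0 ≤ ∑ k, |XX φ h l l' k| ^ 3 := sum_nonneg fun k _ => pow_nonneg (abs_nonneg _) _
    have hs1 : 0 ≤ ∑ k, |XX φ h l l' k| := sum_nonneg fun k _ => abs_nonneg _
    have hm' : (1 : ℝ) ≤ m := by exact_mod_cast hm
    have main := hC ρ hρ r3 m hm (Fin 2 × Fin 2 × Option (Fin m))
      (fun i => wtt θ.pr φ κ ρ (2 * m + 1 + ρ) (XX φ h l l' 0) (XX φ h l l' 1)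
        (fun v : Fin m => (deg h m v.val : ℝ)) l l' i.1 i.2.1 i.2.2)
      (XX φ h l l') (fun i k => inc φ l l' i.1 i.2.1 i.2.2 k) (fun i => D0 _ _ _) (fun k => XX_bd hl h l l' k)
      (fun i k => inc_bd hl l l' _ _ _ k) ?_ ?_
    · simp only [Fintype.sum_prod_type] at main
      have e : Real.exp (ρ * (∑ k, |XX φ h l l' k| ^ 3) / (m : ℝ) ^ 2 + C * ρ / ((m : ℝ) * √m)) =
          GG ρ m (XX φ h l l') * Real.exp (C * ρ / ((m : ℝ) * √m)) := by
        rw [Real.exp_add]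
        rfl
      rw [e] at main
      refine le_of_eq_of_le ?_ main
      refine sum_congr rfl fun j _ => sum_congr rfl fun j' _ => sum_congr rfl fun x _ => ?_
      unfold GG
      push_cast
      rfl
    · simp only [Fintype.sum_prod_type]
      refine M.trans ?_
      gcongr
      exact le_max_left _ _
    · intro k
      simp only [Fintype.sum_prod_type]
      refine (D k).trans ?_
      gcongr
      exact le_max_right _ _
  -- the first step
  have one : WW θ ρ φ 1 (GG ρ 1) ≤ Real.exp (3 * (2 * Φ ^ 2) ^ 3 * ρ) := by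
    have hle : WW θ ρ φ 1 (GG ρ 1) ≤ WW θ ρ φ 1 (fun Y => (fun _ => (1 : ℝ)) Y * Real.exp (3 * (2 * Φ ^ 2) ^ 3 * ρ)) := by
      refine WW_mono hRQ θ hρ φ 1 _ _ fun h l l' => ?_
      show GG ρ 1 (XX φ h l l') ≤ 1 * Real.exp (3 * (2 * Φ ^ 2) ^ 3 * ρ)
      rw [one_mul]
      unfold GG
      rw [Real.exp_le_exp]
      have : ∑ k, |XX φ h l l' k| ^ 3 ≤ ∑ k : Fin 3, (2 * Φ ^ 2) ^ 3 := by
        refine sum_le_sum fun k _ => ?_
        have := XX_bd hl h l l' k
        rw [Nat.cast_one, mul_one] at this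
        exact pow_le_pow_left₀ (abs_nonneg _) this 3
      rw [sum_const, card_univ, Fintype.card_fin] at this
      have e3 : (3 : ℕ) • (2 * Φ ^ 2) ^ 3 = 3 * (2 * Φ ^ 2) ^ 3 := by
        rw [nsmul_eq_mul]
        norm_num
      rw [e3] at this
      rw [Nat.cast_one, one_pow, div_one]
      calc ρ * ∑ k, |XX φ h l l' k| ^ 3 ≤ ρ * (3 * (2 * Φ ^ 2) ^ 3) := mul_le_mul_of_nonneg_left this hρ.le
        _ = 3 * (2 * Φ ^ 2) ^ 3 * ρ := by ring
    refine hle.trans ?_
    rw [WW_smul, WW_one]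
    have e1 : ∑ h : Hist 1, law θ h ^ 2 / refq ρ h = 1 := by
      have hu : ∀ h : Hist 1, law θ h = 1 ∧ refq ρ h = 1 := by
        intro h
        have hsub : ∀ g : Hist 1, g = h := by
          intro g
          funext k
          have h1 := (g k).isLt
          have h2 := (h k).isLt
          have h3 := k.isLt
          exact Fin.ext (by omega)
        have s1 := law_sum θ 1
        have s2 := (hRQ ρ hρ 1).2
        have hun : (univ : Finset (Hist 1)) = {h} := by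
          ext g
          simp [hsub g]
        rw [hun, sum_singleton] at s1 s2
        exact ⟨s1, s2⟩
      have : ∀ h : Hist 1, law θ h ^ 2 / refq ρ h = law θ h := by
        intro h
        rw [(hu h).1, (hu h).2]
        norm_num
      rw [sum_congr rfl fun h _ => this h, law_sum]
    rw [e1, one_mul]
  -- induction
  have ind : ∀ m : ℕ, 1 ≤ m → WW θ ρ φ m (GG ρ m) ≤
      Real.exp (3 * (2 * Φ ^ 2) ^ 3 * ρ + 4 * C * ρ * (1 - 1 / √(m : ℝ))) := by
    intro m hm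
    induction m, hm using Nat.le_induction with
    | base =>
      refine one.trans ?_
      rw [Real.exp_le_exp]
      simp
    | succ m hm ih =>
      refine (step m hm).trans ?_
      calc WW θ ρ φ m (GG ρ m) * Real.exp (C * ρ / ((m : ℝ) * √m)) ≤
          Real.exp (3 * (2 * Φ ^ 2) ^ 3 * ρ + 4 * C * ρ * (1 - 1 / √(m : ℝ))) *
            Real.exp (C * ρ / ((m : ℝ) * √m)) := mul_le_mul_of_nonneg_right ih (Real.exp_pos _).le
        _ ≤ _ := by
          rw [← Real.exp_add, Real.exp_le_exp]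
          have h1 := series_step m hm
          have h2 : C * ρ / ((m : ℝ) * √m) ≤ C * ρ * (4 * (1 / √(m : ℝ) - 1 / √((m : ℝ) + 1))) := by
            rw [div_eq_mul_one_div]
            exact mul_le_mul_of_nonneg_left h1 (mul_nonneg c0 hρ.le)
          push_cast
          linarith
  rcases Nat.eq_zero_or_pos n with h0 | h0
  · subst h0
    have e1 : ∑ h : Hist 0, law θ h ^ 2 / refq ρ h = 1 := by
      have : ∀ h : Hist 0, law θ h ^ 2 / refq ρ h = 1 := by
        intro h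
        simp [law, joint, refq]
      rw [sum_congr rfl fun h _ => this h]
      simp
    rw [e1]
    exact Real.one_le_exp (by positivity)
  · rw [← WW_one θ ρ φ n]
    have h1 : WW θ ρ φ n (fun _ => 1) ≤ WW θ ρ φ n (GG ρ n) := by
      refine WW_mono hRQ θ hρ φ n _ _ fun h l l' => ?_
      unfold GG
      refine Real.one_le_exp ?_
      have hs3 : 0 ≤ ∑ k, |XX φ h l l' k| ^ 3 := sum_nonneg fun k _ => pow_nonneg (abs_nonneg _) _
      positivity
    refine (h1.trans (ind n h0)).trans ?_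
    rw [Real.exp_le_exp]
    have h2 : 0 ≤ 4 * C * ρ * (1 / √(n : ℝ)) := by positivity
    nlinarith

end Pool.Agent.L7h7.HP
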