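import Pool.Agent.L7h7.HP.Tv

set_option autoImplicit false

open Finset Filter Topology

namespace Pool.Agent.L7h7.HP

theorem loopP_eq (θ : Param 2) (n : ℕ) :
    loopP θ n = Ex θ n fun h l => ∑ j, θ.pr j * (θ.ga j j / dn θ h l j) := by
  have h1 : loopP θ n = Ex θ (n + 1) fun h _ => if (h (Fin.last n)).val = n then 1 else 0 := by
    unfold loopP Ex law
    refine sum_congr rfl fun h _ => ?_
    by_cases hh : (h (Fin.last n)).val = n
    · simp only [if_pos hh, mul_one]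
    · simp only [if_neg hh, mul_zero, sum_const_zero]
  rw [h1, Ex_succ]
  unfold Ex
  refine sum_congr rfl fun h _ => sum_congr rfl fun l _ => ?_
  congr 1
  refine sum_congr rfl fun j _ => ?_
  rw [Fin.sum_univ_castSucc]
  have e1 : ∀ v : Fin (n + 1), (hsn h v (Fin.last n)).val = v.val := fun v => congrArg Fin.val (hsn_last h v)
  have e2 : ∑ i : Fin n, θ.pr j * tr θ h l j i.castSucc *
      (if (hsn h i.castSucc (Fin.last n)).val = n then (1 : ℝ) else 0) = 0 := by
    refine sum_eq_zero fun i _ => ?_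
    have := i.isLt
    rw [e1, if_neg (by simp only [Fin.val_castSucc]; omega), mul_zero]
  rw [e2, zero_add, e1, if_pos (by simp), mul_one]
  unfold tr
  rw [dif_neg (by simp)]

theorem joint_eq_zero {K n : ℕ} (θ : Param K) (h : Hist n) (l : Fin n → Fin K) (v : Fin n) (hv : θ.pr (l v) = 0) :
    joint θ h l = 0 := by
  unfold joint
  exact prod_eq_zero (mem_univ v) (by rw [hv, zero_mul])

theorem Ex_congr' {K n : ℕ} (θ : Param K) (F G : Hist n → (Fin n → Fin K) → ℝ)
    (h : ∀ g l, (∀ v, θ.pr (l v) ≠ 0) → F g l = G g l) : Ex θ n F = Ex θ n G := by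
  unfold Ex
  refine sum_congr rfl fun g _ => sum_congr rfl fun l _ => ?_
  by_cases hl : ∀ v, θ.pr (l v) ≠ 0
  · rw [h g l hl]
  · push Not at hl
    obtain ⟨v, hv⟩ := hl
    rw [joint_eq_zero θ g l v hv, zero_mul, zero_mul]

theorem loopP_deg (θ : Param 2) (k : Fin 2) (hk : θ.pr k = 0) (n : ℕ) : loopP θ n = 1 / (2 * n + 1) := by
  rw [loopP_eq]
  have h1 : Ex θ n (fun h l => ∑ j, θ.pr j * (θ.ga j j / dn θ h l j)) = Ex θ n (fun _ _ => 1 / (2 * (n : ℝ) + 1)) := by
    refine Ex_congr' θ _ _ fun h l hl => ?_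
    obtain ⟨c, hc, hcu, hkc⟩ : ∃ c : Fin 2, θ.pr c = 1 ∧ (∀ j, j ≠ k → j = c) ∧ c ≠ k := by
      have hs := θ.pr_sum
      rw [Fin.sum_univ_two] at hs
      revert hk
      fin_cases k
      · intro hk
        have hk' : θ.pr 0 = 0 := hk
        refine ⟨1, by linarith, fun j hj => ?_, by decide⟩
        revert hj
        revert j
        decide
      · intro hk
        have hk' : θ.pr 1 = 0 := hk
        refine ⟨0, by linarith, fun j hj => ?_, by decide⟩
        revert hj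
        revert j
        decide
    have hlc : ∀ v, l v = c := fun v => hcu _ fun h => hl v (by rw [h, hk])
    have e1 : ∀ j, j ≠ c → θ.pr j * (θ.ga j j / dn θ h l j) = 0 := by
      intro j hj
      have : j = k := by
        by_contra h'
        exact hj (hcu j h')
      rw [this, hk, zero_mul]
    rw [sum_eq_single c (fun j _ hj => e1 j hj) (fun h => absurd (mem_univ _) h), hc, one_mul]
    have e2 : dn θ h l c = θ.ga c c * (2 * n + 1) := by
      unfold dn
      have := deg_sum h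
      rw [← Nat.cast_inj (R := ℝ)] at this
      push_cast at this
      have e3 : ∑ u : Fin n, θ.ga c (l u) * (deg h n u : ℝ) = θ.ga c c * (2 * n) := by
        rw [← this, mul_sum]
        refine sum_congr rfl fun u _ => ?_
        rw [hlc]
      rw [e3]
      ring
    rw [e2, div_mul_eq_div_div, div_self (θ.ga_pos c c).ne']
  rw [h1]
  have : Ex θ n (fun _ _ => 1 / (2 * (n : ℝ) + 1)) = Ex θ n (fun _ _ => 1) * (1 / (2 * n + 1)) := by
    unfold Ex
    simp only [mul_one, sum_mul]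
  rw [this, Ex_one, one_mul]

theorem s_DEG : S_DEG := by
  intro θ k hk
  simp only [loopP_deg θ k hk]
  have h1 : Tendsto (fun n : ℕ => (1 : ℝ) / 2 - 1 / 2 * (1 / (2 * (n : ℝ) + 1))) atTop (𝓝 (1 / 2 - 1 / 2 * 0)) := by
    refine Tendsto.sub tendsto_const_nhds (Tendsto.mul tendsto_const_nhds ?_)
    have h2 : Tendsto (fun n : ℕ => 2 * (n : ℝ) + 1) atTop atTop :=
      tendsto_atTop_add_const_right _ _ (Tendsto.const_mul_atTop (by norm_num) tendsto_natCast_atTop_atTop)
    have h3 := h2.inv_tendsto_atTop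
    simp only [one_div]
    exact h3
  rw [mul_zero, sub_zero] at h1
  refine h1.congr fun n => ?_
  have : (2 * (n : ℝ) + 1) ≠ 0 := by positivity
  field_simp
  ring

theorem two_val (p r ρ : ℝ) (hr : 0 < r) (hρ : 0 < ρ) (hρ1 : ρ < 1) (hp : 0 < p) (hp1 : p < 1) :
    p * p * (r * (1 + ρ * ((1 - p) / p)) / (r * (1 + ρ * ((1 - p) / p)) + 2 * (r * (1 + ρ * ((1 - p) / p))))) +
      p * (1 - p) * (r * (1 + ρ * ((1 - p) / p)) / (r * (1 + ρ * ((1 - p) / p)) + 2 * (r * (1 - ρ)))) +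
      ((1 - p) * p * (r * (1 + ρ * (p / (1 - p))) / (r * (1 + ρ * (p / (1 - p))) + 2 * (r * (1 - ρ)))) +
      (1 - p) * (1 - p) * (r * (1 + ρ * (p / (1 - p))) / (r * (1 + ρ * (p / (1 - p))) +
        2 * (r * (1 + ρ * (p / (1 - p))))))) =
    1 / 3 + 2 * ρ * (3 - ρ) / 3 * (p * (1 - p) / (9 * (1 - ρ) ^ 2 * (p * (1 - p)) + ρ * (3 - 2 * ρ))) := by
  have hq : 0 < 1 - p := by linarith
  have h1ρ : 0 < 1 - ρ := by linarith
  have a0 : 0 < 1 + ρ * ((1 - p) / p) := by positivity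
  have a1 : 0 < 1 + ρ * (p / (1 - p)) := by positivity
  have e1 : r * (1 + ρ * ((1 - p) / p)) / (r * (1 + ρ * ((1 - p) / p)) + 2 * (r * (1 + ρ * ((1 - p) / p)))) = 1 / 3 := by
    rw [div_eq_div_iff (by positivity) (by norm_num)]
    ring
  have e2 : r * (1 + ρ * (p / (1 - p))) / (r * (1 + ρ * (p / (1 - p))) + 2 * (r * (1 + ρ * (p / (1 - p))))) = 1 / 3 := by
    rw [div_eq_div_iff (by positivity) (by norm_num)]
    ring
  have d0 : 0 < p * (3 - 2 * ρ) + ρ * (1 - p) := by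
    have : 0 < 3 - 2 * ρ := by linarith
    positivity
  have d1 : 0 < (1 - p) * (3 - 2 * ρ) + ρ * p := by
    have : 0 < 3 - 2 * ρ := by linarith
    positivity
  have e3 : r * (1 + ρ * ((1 - p) / p)) / (r * (1 + ρ * ((1 - p) / p)) + 2 * (r * (1 - ρ))) =
      (p + ρ * (1 - p)) / (p * (3 - 2 * ρ) + ρ * (1 - p)) := by
    rw [div_eq_div_iff (by positivity) d0.ne']
    field_simp
    ring
  have e4 : r * (1 + ρ * (p / (1 - p))) / (r * (1 + ρ * (p / (1 - p))) + 2 * (r * (1 - ρ))) =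
      ((1 - p) + ρ * p) / ((1 - p) * (3 - 2 * ρ) + ρ * p) := by
    rw [div_eq_div_iff (by positivity) d1.ne']
    field_simp
    ring
  rw [e1, e2, e3, e4]
  have d2 : 9 * (1 - ρ) ^ 2 * (p * (1 - p)) + ρ * (3 - 2 * ρ) =
      (p * (3 - 2 * ρ) + ρ * (1 - p)) * ((1 - p) * (3 - 2 * ρ) + ρ * p) := by ring
  rw [d2]
  set A := p * (3 - 2 * ρ) + ρ * (1 - p) with hA
  set B := (1 - p) * (3 - 2 * ρ) + ρ * p with hB
  have d0' : A ≠ 0 := d0.ne'
  have d1' : B ≠ 0 := d1.ne'
  have hk : (p + ρ * (1 - p)) * B + ((1 - p) + ρ * p) * A = 2 / 3 * (A * B) + 2 * ρ * (1 - ρ / 3) := by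
    rw [hA, hB]
    ring
  have f1 : (p + ρ * (1 - p)) / A = (p + ρ * (1 - p)) * B / (A * B) := (mul_div_mul_right _ _ d1').symm
  have f2 : ((1 - p) + ρ * p) / B = ((1 - p) + ρ * p) * A / (A * B) := by
    rw [mul_comm A B]
    exact (mul_div_mul_right _ _ d0').symm
  have f3 : (p + ρ * (1 - p)) / A + ((1 - p) + ρ * p) / B = 2 / 3 + 2 * ρ * (1 - ρ / 3) / (A * B) := by
    rw [f1, f2, ← add_div, hk, add_div, mul_div_assoc, div_self (mul_ne_zero d0' d1'), mul_one]
  calc p * p * (1 / 3) + p * (1 - p) * ((p + ρ * (1 - p)) / A) +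
        ((1 - p) * p * (((1 - p) + ρ * p) / B) + (1 - p) * (1 - p) * (1 / 3)) =
      (p * p + (1 - p) * (1 - p)) / 3 + p * (1 - p) * ((p + ρ * (1 - p)) / A + ((1 - p) + ρ * p) / B) := by ring
    _ = _ := by
      rw [f3]
      ring

theorem loopP_one (θ : Param 2) :
    loopP θ 1 = ∑ j, ∑ l, θ.pr j * θ.pr l * (θ.ga j j / (θ.ga j j + 2 * θ.ga j l)) := by
  · rw [loopP_eq, Ex_succ]
    unfold Ex
    have hH : ∀ f : Hist 0 → ℝ, ∑ h, f h = f (fun k => k.elim0) := by
      intro f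
      rw [Fintype.sum_unique]
      congr 1
    have hL : ∀ f : (Fin 0 → Fin 2) → ℝ, ∑ l, f l = f (fun k => k.elim0) := by
      intro f
      rw [Fintype.sum_unique]
      congr 1
    rw [hH, hL]
    have hj : joint θ (fun k : Fin 0 => (k.elim0 : Fin (k.val + 1))) (fun k => k.elim0) = 1 := by
      simp [joint]
    rw [hj, one_mul]
    have hv : ∀ f : Fin (0 + 1) → ℝ, ∑ v, f v = f 0 := by
      intro f
      exact Fin.sum_univ_one f
    simp only [hv]
    have htr : ∀ j, tr θ (fun k : Fin 0 => (k.elim0 : Fin (k.val + 1))) (fun k => k.elim0) j 0 = 1 := by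
      intro j
      have := tr_sum θ (fun k : Fin 0 => (k.elim0 : Fin (k.val + 1))) (fun k => k.elim0) j
      rw [hv] at this
      exact this
    simp only [htr, mul_one, mul_sum]
    rw [sum_comm]
    refine sum_congr rfl fun j _ => sum_congr rfl fun l _ => ?_
    have hd : dn θ (hsn (fun k : Fin 0 => (k.elim0 : Fin (k.val + 1))) 0) (lsn (fun k : Fin 0 => k.elim0) l) j =
        θ.ga j j + 2 * θ.ga j l := by
      unfold dn
      have h2 := deg_sum (hsn (fun k : Fin 0 => (k.elim0 : Fin (k.val + 1))) (0 : Fin (0 + 1)))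
      have hv' : ∀ f : Fin (0 + 1) → ℕ, ∑ v, f v = f 0 := fun f => Fin.sum_univ_one f
      rw [hv'] at h2
      rw [hv, h2]
      have hl : lsn (fun k : Fin 0 => (k.elim0 : Fin 2)) l 0 = l := lsn_last (fun k : Fin 0 => (k.elim0 : Fin 2)) l
      rw [hl]
      push_cast
      ring
    rw [hd]
    ring

theorem s_TWO : S_TWO := by
  have hloop := loopP_one
  refine ⟨loopP_one, ?_⟩
  · intro θ θ' p p' r r' ρ hρ hρ1 hr hr' hp hp1 hp' hp1' e0 e0' a00 a01 a11 b00 b01 b11 heq
    have hl : ∀ (τ : Param 2) (s c : ℝ), 0 < c → 0 < s → s < 1 → τ.pr 0 = s → τ.ga 0 0 = c * (1 + ρ * ((1 - s) / s)) →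
        τ.ga 0 1 = c * (1 - ρ) → τ.ga 1 1 = c * (1 + ρ * (s / (1 - s))) → loopP τ 1 =
        1 / 3 + 2 * ρ * (3 - ρ) / 3 * (s * (1 - s) / (9 * (1 - ρ) ^ 2 * (s * (1 - s)) + ρ * (3 - 2 * ρ))) := by
      intro τ s c hc hs hs1 h0 h1 h2 h3
      have h4 : τ.pr 1 = 1 - s := by
        have := τ.pr_sum
        rw [Fin.sum_univ_two, h0] at this
        linarith
      rw [hloop τ, ← two_val s c ρ hc hρ hρ1 hs hs1]
      simp only [Fin.sum_univ_two, h0, h4, τ.ga_symm 1 0, h1, h2, h3]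
    rw [hl θ p r hr hp hp1 e0 a00 a01 a11, hl θ' p' r' hr' hp' hp1' e0' b00 b01 b11] at heq
    have h1ρ : 0 < 1 - ρ := by linarith
    have h3ρ : 0 < 3 - ρ := by linarith
    have h2ρ : 0 < 3 - 2 * ρ := by linarith
    have hq : 0 < 1 - p := by linarith
    have hq' : 0 < 1 - p' := by linarith
    have hc : 2 * ρ * (3 - ρ) / 3 ≠ 0 := by positivity
    have h5 := mul_left_cancel₀ hc (add_left_cancel heq)
    rw [div_eq_div_iff (by positivity) (by positivity)] at h5
    have h6 : (p * (1 - p) - p' * (1 - p')) * (ρ * (3 - 2 * ρ)) = 0 := by linarith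
    have h7 : p * (1 - p) - p' * (1 - p') = 0 := by
      rcases mul_eq_zero.1 h6 with h | h
      · exact h
      · exact absurd h (by positivity)
    have h8 : (p' - p) * (p' - (1 - p)) = 0 := by linarith
    rcases mul_eq_zero.1 h8 with h | h
    · left; linarith
    · right; linarith

end Pool.Agent.L7h7.HP
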