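import Pool.Agent.L7h7.HP.Lik
import Pool.Agent.L7h7.HP.Ident
import Pool.Agent.L7h7.HP.Sm
import Pool.Agent.L7h7.HP.Two
import Pool.Agent.L7h7.HP.Labb
import Pool.Agent.L7h7.HP.Alg
import Pool.Agent.L7h7.HP.Fx
import Pool.Agent.L7h28.HP.Rec
import Pool.Agent.L7h28.HP.Lln
import Pool.Agent.L7h28.HP.Loop
import Pool.Agent.L7h75.HP.Leaf

/-!
# Project HP: the assembly
-/

set_option autoImplicit false

open Finset Filter Topology MeasureTheory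

namespace Pool.Agent.L7h7.HP

/-- The parameter with two labels of probabilities `p`, `1 - p` and the affinities `1 + ρ (1 - p)/p`, `1 - ρ` (between
different labels), `1 + ρ p/(1 - p)`. -/
noncomputable def bal (p ρ : ℝ) (hp : 0 < p) (hp1 : p < 1) (hρ : 0 < ρ) (hρ1 : ρ < 1) : Param 2 where
  pr := ![p, 1 - p]
  ga := ![![1 + ρ * ((1 - p) / p), 1 - ρ], ![1 - ρ, 1 + ρ * (p / (1 - p))]]
  pr_nonneg j := by
    fin_cases j
    · exact hp.le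
    · exact sub_nonneg.2 hp1.le
  pr_sum := by
    rw [Fin.sum_univ_two]
    exact add_sub_cancel _ _
  ga_pos i j := by
    have h1 : 0 < 1 - p := by linarith
    have h2 : 0 < 1 - ρ := by linarith
    fin_cases i <;> fin_cases j
    · show 0 < 1 + ρ * ((1 - p) / p)
      positivity
    · exact h2
    · exact h2
    · show 0 < 1 + ρ * (p / (1 - p))
      positivity
  ga_symm i j := by
    fin_cases i <;> fin_cases j <;> rfl

theorem bal_isBal (p ρ : ℝ) (hp : 0 < p) (hp1 : p < 1) (hρ : 0 < ρ) (hρ1 : ρ < 1) :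
    IsBal (bal p ρ hp hp1 hρ hρ1) p ρ :=
  ⟨hp, hp1, hρ, hρ1, rfl, rfl, rfl, rfl⟩

theorem id_all : S_ID :=
  have hL := Pool.Agent.L7h28.HP.s_LLN s_FX
  s_ID hL (s_EXIST s_FX hL) Pool.Agent.L7h28.HP.s_LOOP Pool.Agent.L7h75.HP.s_LEAF s_DEG s_TWO s_ALG

theorem tv_all (hM : S_MASS) (hD : S_DRIFT) (hC : S_COMB) : S_TV :=
  s_TV (s_SM hM hD hC Pool.Agent.L7h28.HP.s_REC s_REFQ) s_LABB s_REFQ

theorem prod_ne {p p' : ℝ} (h : p < p') (h2 : p' ≤ 1 / 2) : p * (1 - p) < p' * (1 - p') := by nlinarith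

theorem main (hM : S_MASS) (hD : S_DRIFT) (hC : S_COMB) (ε : ℝ) (hε : 0 < ε) (hε' : ε ≤ 1 / 2) :
    ∃ ρ₀ : ℝ, 0 < ρ₀ ∧ ρ₀ < 1 ∧ ∀ ρ : ℝ, 0 < ρ → ρ ≤ ρ₀ → ∀ (θ θ' : Param 2) (p p' : ℝ), IsBal θ p ρ → IsBal θ' p' ρ →
      ε ≤ p → p < p' → p' ≤ 1 / 2 → IsIdentifiable θ ∧ IsIdentifiable θ' ∧
      (∀ n : ℕ, ∑ h : Hist n, |Gn θ h - Gn θ' h| ≤ 1 / 2) ∧
      ∀ T : Est 2, ¬ (ConvProb T θ ∧ ConvProb T θ') := by
  obtain ⟨ρ₀, h1, h2, h3⟩ := tv_all hM hD hC ε hε hε'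
  refine ⟨ρ₀, h1, h2, fun ρ hρ hρ0 θ θ' p p' hb hb' hp hpp hp' => ?_⟩
  have tv := h3 θ θ' p p' ρ hb hb' hρ0 hp (by linarith) (by linarith) hp'
  refine ⟨(isIdentifiable_iff θ).2 (id_all θ p ρ hb), (isIdentifiable_iff θ').2 (id_all θ' p' ρ hb'), fun n => ?_,
    fun T => not_both ?_ tv T⟩
  · simp only [Gn_eq]
    exact tv n
  · rw [hb.pr0, hb'.pr0, bal_pr1 hb, bal_pr1 hb']
    exact (prod_ne hpp hp').ne

end Pool.Agent.L7h7.HP
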