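import Pool.Agent.L7h7.HP.Stm2

set_option autoImplicit false

open Finset Filter Topology

namespace Pool.Agent.L7h7.HP

theorem hsn_cs {n : ℕ} (h : Hist n) (v : Fin (n + 1)) (k : Fin n) : hsn h v k.castSucc = h k :=
  Fin.snoc_castSucc (α := fun k : Fin (n + 1) => Fin (k.val + 1)) v h k

theorem hsn_last {n : ℕ} (h : Hist n) (v : Fin (n + 1)) : hsn h v (Fin.last n) = v :=
  Fin.snoc_last (α := fun k : Fin (n + 1) => Fin (k.val + 1)) v h

theorem lsn_cs {K n : ℕ} (l : Fin n → Fin K) (j : Fin K) (k : Fin n) : lsn l j k.castSucc = l k :=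
  Fin.snoc_castSucc (α := fun _ : Fin (n + 1) => Fin K) j l k

theorem lsn_last {K n : ℕ} (l : Fin n → Fin K) (j : Fin K) : lsn l j (Fin.last n) = j :=
  Fin.snoc_last (α := fun _ : Fin (n + 1) => Fin K) j l

theorem sum_hist {n : ℕ} (f : Hist (n + 1) → ℝ) : ∑ h, f h = ∑ h : Hist n, ∑ v : Fin (n + 1), f (hsn h v) := by
  rw [← (Fin.snocEquiv (fun k : Fin (n + 1) => Fin (k.val + 1))).sum_comp, Fintype.sum_prod_type_right]
  rfl

theorem sum_lab {K n : ℕ} (f : (Fin (n + 1) → Fin K) → ℝ) : ∑ l, f l = ∑ l : Fin n → Fin K, ∑ j, f (lsn l j) := by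
  rw [← (Fin.snocEquiv (fun _ : Fin (n + 1) => Fin K)).sum_comp, Fintype.sum_prod_type_right]
  rfl

theorem deg_hsn_le {n : ℕ} (h : Hist n) (v : Fin (n + 1)) (i u : ℕ) (hi : i ≤ n) :
    deg (hsn h v) i u = deg h i u := by
  unfold deg
  congr 1
  rw [card_filter, card_filter, Fin.sum_univ_castSucc]
  have h1 : ¬ ((Fin.last n).val < i ∧ (hsn h v (Fin.last n)).val = u) := by
    rintro ⟨h1, -⟩
    simp only [Fin.val_last] at h1
    omega
  rw [if_neg h1, add_zero]
  refine sum_congr rfl fun k _ => ?_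
  have h2 : (hsn h v k.castSucc).val = (h k).val := congrArg Fin.val (hsn_cs h v k)
  rw [h2]
  rfl

theorem deg_hsn_succ {n : ℕ} (h : Hist n) (v : Fin (n + 1)) (u : ℕ) (hu : u ≤ n) :
    deg (hsn h v) (n + 1) u = deg h n u + (if u = v.val then 1 else 0) + (if u = n then 1 else 0) := by
  unfold deg
  rw [card_filter, card_filter, Fin.sum_univ_castSucc]
  have h2 : ∀ k : Fin n, (hsn h v k.castSucc).val = (h k).val := fun k => congrArg Fin.val (hsn_cs h v k)
  have h3 : (hsn h v (Fin.last n)).val = v.val := congrArg Fin.val (hsn_last h v)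
  have e1 : ∀ k : Fin n, (if (k.castSucc).val < n + 1 ∧ (hsn h v k.castSucc).val = u then 1 else 0 : ℕ) =
      if k.val < n ∧ (h k).val = u then 1 else 0 := by
    intro k
    rw [h2 k]
    have : k.castSucc.val < n + 1 ↔ k.val < n := by
      have := k.isLt
      simp only [Fin.val_castSucc]
      omega
    simp only [this]
  simp only [e1, h3, Fin.val_last]
  generalize (∑ k : Fin n, if k.val < n ∧ (h k).val = u then 1 else 0 : ℕ) = A
  have h4 := v.isLt
  split_ifs <;> omega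

theorem deg_self {n : ℕ} (h : Hist n) : deg h n n = 0 := by
  unfold deg
  rw [card_filter]
  simp only [lt_irrefl, if_false, zero_add]
  refine sum_eq_zero fun k _ => ?_
  have h1 := (h k).isLt
  have h2 := k.isLt
  rw [if_neg]
  rintro ⟨-, h3⟩
  omega

theorem deg_sum {n : ℕ} (h : Hist n) : ∑ u : Fin n, deg h n u = 2 * n := by
  unfold deg
  rw [sum_add_distrib]
  have e1 : ∑ u : Fin n, (if u.val < n then 1 else 0 : ℕ) = n := by
    simp
  have e2 : ∑ u : Fin n, #{k : Fin n | k.val < n ∧ (h k).val = u.val} = n := by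
    simp only [card_filter]
    rw [sum_comm]
    have : ∀ k : Fin n, ∑ u : Fin n, (if k.val < n ∧ (h k).val = u.val then 1 else 0 : ℕ) = 1 := by
      intro k
      rw [sum_eq_single (tgt h k)]
      · rw [if_pos ⟨k.isLt, rfl⟩]
      · intro u _ hu
        rw [if_neg]
        rintro ⟨-, h3⟩
        exact hu (Fin.ext h3.symm)
      · intro h3
        exact absurd (mem_univ _) h3
    rw [sum_congr rfl fun k _ => this k]
    simp
  rw [e1, e2]
  omega

theorem dn_pos {K n : ℕ} (θ : Param K) (h : Hist n) (l : Fin n → Fin K) (j : Fin K) : 0 < dn θ h l j := by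
  unfold dn
  have h1 := θ.ga_pos j j
  have h2 : 0 ≤ ∑ u : Fin n, θ.ga j (l u) * (deg h n u : ℝ) :=
    sum_nonneg fun u _ => mul_nonneg (θ.ga_pos _ _).le (Nat.cast_nonneg _)
  linarith

theorem tr_sum {K n : ℕ} (θ : Param K) (h : Hist n) (l : Fin n → Fin K) (j : Fin K) : ∑ v, tr θ h l j v = 1 := by
  unfold tr
  rw [← sum_div, div_eq_one_iff_eq (dn_pos θ h l j).ne', Fin.sum_univ_castSucc]
  unfold dn
  rw [dif_neg (by simp), add_comm]
  congr 1
  refine sum_congr rfl fun u _ => ?_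
  rw [dif_pos (by simp)]
  rfl

theorem den_cs {K n : ℕ} (θ : Param K) (h : Hist n) (l : Fin n → Fin K) (v : Fin (n + 1)) (j' : Fin K) (i : ℕ)
    (hi : i ≤ n) (j : Fin K) : den θ (hsn h v) (lsn l j') i j = den θ h l i j := by
  unfold den
  congr 1
  rw [sum_filter, sum_filter, Fin.sum_univ_castSucc, if_neg (by simp only [Fin.val_last]; omega), add_zero]
  refine sum_congr rfl fun u _ => ?_
  rw [lsn_cs, deg_hsn_le h v i _ hi]
  rfl

theorem den_last {K n : ℕ} (θ : Param K) (h : Hist n) (l : Fin n → Fin K) (v : Fin (n + 1)) (j' j : Fin K) :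
    den θ (hsn h v) (lsn l j') n j = dn θ h l j := by
  unfold den dn
  congr 1
  rw [sum_filter, Fin.sum_univ_castSucc, if_neg (by simp), add_zero]
  refine sum_congr rfl fun u _ => ?_
  rw [if_pos (by simp), lsn_cs, deg_hsn_le h v n _ le_rfl]
  rfl

theorem link_cs {K n : ℕ} (θ : Param K) (h : Hist n) (l : Fin n → Fin K) (v : Fin (n + 1)) (j : Fin K) (k : Fin n) :
    link θ (hsn h v) (lsn l j) k.castSucc = link θ h l k := by
  unfold link
  have h2 : (hsn h v k.castSucc).val = (h k).val := congrArg Fin.val (hsn_cs h v k)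
  have h3 : tgt (hsn h v) k.castSucc = (tgt h k).castSucc := Fin.ext h2
  rw [h3, lsn_cs, lsn_cs, h2]
  have h4 : (k.castSucc).val = k.val := rfl
  rw [h4, deg_hsn_le h v k.val _ k.isLt.le, den_cs θ h l v j k.val k.isLt.le]

theorem link_last {K n : ℕ} (θ : Param K) (h : Hist n) (l : Fin n → Fin K) (v : Fin (n + 1)) (j : Fin K) :
    link θ (hsn h v) (lsn l j) (Fin.last n) = tr θ h l j v := by
  unfold link tr
  have h3 : (hsn h v (Fin.last n)).val = v.val := congrArg Fin.val (hsn_last h v)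
  rw [h3, lsn_last]
  have h4 : (Fin.last n).val = n := rfl
  rw [h4, den_last]
  congr 1
  by_cases hv : v.val < n
  · rw [if_neg (by omega), dif_pos hv, deg_hsn_le h v n _ le_rfl]
    have h5 : tgt (hsn h v) (Fin.last n) = (⟨v.val, hv⟩ : Fin n).castSucc := Fin.ext h3
    rw [h5, lsn_cs]
  · rw [if_pos (by have := v.isLt; omega), dif_neg hv]

theorem joint_hsn {K n : ℕ} (θ : Param K) (h : Hist n) (l : Fin n → Fin K) (v : Fin (n + 1)) (j : Fin K) :
    joint θ (hsn h v) (lsn l j) = joint θ h l * (θ.pr j * tr θ h l j v) := by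
  unfold joint
  rw [Fin.prod_univ_castSucc, lsn_last, link_last]
  congr 1
  refine prod_congr rfl fun k _ => ?_
  rw [lsn_cs, link_cs]

theorem Ex_succ {K : ℕ} (θ : Param K) (n : ℕ) (F : Hist (n + 1) → (Fin (n + 1) → Fin K) → ℝ) :
    Ex θ (n + 1) F = Ex θ n fun h l => ∑ j, ∑ v : Fin (n + 1), θ.pr j * tr θ h l j v * F (hsn h v) (lsn l j) := by
  unfold Ex
  rw [sum_hist]
  refine sum_congr rfl fun h _ => ?_
  have e1 : ∀ v : Fin (n + 1), ∑ l, joint θ (hsn h v) l * F (hsn h v) l =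
      ∑ l : Fin n → Fin K, ∑ j, joint θ (hsn h v) (lsn l j) * F (hsn h v) (lsn l j) := fun v => sum_lab _
  rw [sum_congr rfl fun v _ => e1 v, sum_comm]
  refine sum_congr rfl fun l _ => ?_
  rw [sum_comm, mul_sum]
  refine sum_congr rfl fun j _ => ?_
  rw [mul_sum]
  refine sum_congr rfl fun v _ => ?_
  rw [joint_hsn]
  ring

theorem s_SNOC : S_SNOC :=
  ⟨fun θ n F => Ex_succ θ n F, fun θ h l j => ⟨dn_pos θ h l j, tr_sum θ h l j⟩,
    fun θ h l v j => joint_hsn θ h l v j, fun h v u hu => deg_hsn_succ h v u hu, fun h => deg_sum h, fun h => deg_self h⟩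

end Pool.Agent.L7h7.HP
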