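import Pool.Agent.L7h7.HP.Defs

/-!
# Project HP (MP_7e57c2_pr): the statements

THEOREM. Two labels with probabilities `p`, `1 - p`, affinities `γ i j = 1 + ρ φ i φ j` (`φ` = the function of the label
with mean 0 and variance 1). For small `ρ > 0` all these parameters are identifiable, but for `p` in a compact set all the
laws of the histories are within total variation `1/4` of one law, for all `n`. So no estimator is consistent at two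
different values of `p`, in particular not the maximum likelihood estimator.

All parts are independent. File `Pool/Agent/<you>/HP/X.lean`, theorem `s_X : Pool.Agent.L7h7.HP.S_X` (hypotheses `S_Y`
allowed where the docstring says so).
-/

set_option autoImplicit false

open Finset Filter Topology

namespace Pool.Agent.L7h7.HP

/-! ## Part B: the second moment -/

/-- two labels, a centred function of the label of variance one -/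
structure Lab (π φ : Fin 2 → ℝ) (κ Φ : ℝ) : Prop where
  nn : ∀ j, 0 ≤ π j
  sum : ∑ j, π j = 1
  mean : ∑ j, π j * φ j = 0
  var : ∑ j, π j * φ j ^ 2 = 1
  quad : ∀ j, φ j ^ 2 = 1 + κ * φ j
  bd : ∀ j, |φ j| ≤ Φ
  one : 1 ≤ Φ
  kbd : |κ| ≤ 2 * Φ

/-- The weights of one step of the two replicas: labels `j`, `j'`, target `x` (`none` is a loop). -/
noncomputable def wtt (π φ : Fin 2 → ℝ) (κ ρ m S S' : ℝ) {I : Type} (d : I → ℝ) (f f' : I → Fin 2) (j j' : Fin 2) :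
    Option I → ℝ
  | some v => π j * π j' * (m / (m + ρ * φ j * (κ + S))) * (m / (m + ρ * φ j' * (κ + S'))) *
      (d v / m * ((1 + ρ * φ j * φ (f v)) * (1 + ρ * φ j' * φ (f' v))))
  | none => π j * π j' * (m / (m + ρ * φ j * (κ + S))) * (m / (m + ρ * φ j' * (κ + S'))) *
      ((1 + ρ * φ j ^ 2) * (1 + ρ * φ j' ^ 2) / ((1 + ρ) * m))

/-- The increments of the three sums `S`, `S'`, `O`. -/
noncomputable def inc (φ : Fin 2 → ℝ) {I : Type} (f f' : I → Fin 2) (j j' : Fin 2) : Option I → Fin 3 → ℝ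
  | some v => ![φ j + φ (f v), φ j' + φ (f' v), φ j * φ j' + φ (f v) * φ (f' v)]
  | none => ![2 * φ j, 2 * φ j', 2 * (φ j * φ j')]

/-- the three sums -/
noncomputable def vec (φ : Fin 2 → ℝ) {I : Type} [Fintype I] (d : I → ℝ) (f f' : I → Fin 2) : Fin 3 → ℝ :=
  ![∑ v, d v * φ (f v), ∑ v, d v * φ (f' v), ∑ v, d v * (φ (f v) * φ (f' v))]

/-- **MASS.** The total weight is `1` up to a cubic error. Put `m = 2n + 1 + ρ`, `s = (S + κ)/m`, `s' = (S' + κ)/m`.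
EXACTLY: the total weight is `1 + ρ^2 f(s) f(s') ((O + κ^2/(1+ρ))/m - s s')` with
`f(s) = ∑_j π_j φ_j / (1 + ρ φ_j s)`.
Proof: the sum over `x` without the factors `m/(m + ..) = 1/(1 + δ)`, `δ_j = ρ φ_j s`, is
`(2n + ρ φ_j S + ρ φ_j' S' + ρ^2 φ_j φ_j' O + (1 + ρ φ_j^2)(1 + ρ φ_j'^2)/(1+ρ)) / m`, and with `φ_j^2 = 1 + κ φ_j` this
equals `1 + δ_j + δ'_j' + ρ^2 φ_j φ_j' (O + κ^2/(1+ρ))/m`; subtract `(1 + δ)(1 + δ')`.
`f(s) = - ρ s ∑_j π_j φ_j^2/(1 + ρ φ_j s)` because `∑ π φ = 0`, so `|f(s)| ≤ 2 ρ |s|` for small `ρ` (`|s| ≤ 4 Φ`).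
So the error is `≤ 4 ρ^4 |s s'| (|o| + |s s'|)`, AM-GM and `|s s'|^2 ≤ C (|s|^3 + |s'|^3)`,
`|S + κ|^3 ≤ 4 |S|^3 + 4 |κ|^3`. -/
def S_MASS : Prop := ∀ Φ : ℝ, 1 ≤ Φ → ∃ ρ₀ A : ℝ, 0 < ρ₀ ∧ 1 ≤ A ∧
  ∀ (π φ : Fin 2 → ℝ) (κ : ℝ), Lab π φ κ Φ → ∀ ρ : ℝ, 0 < ρ → ρ ≤ ρ₀ → ∀ n : ℕ, 1 ≤ n →
  ∀ (I : Type) [Fintype I] (d : I → ℝ) (f f' : I → Fin 2), (∀ v, 0 ≤ d v) → ∑ v, d v = 2 * n →
    |∑ j, ∑ j', ∑ x, wtt π φ κ ρ (2 * n + 1 + ρ) (vec φ d f f' 0) (vec φ d f f' 1) d f f' j j' x - 1| ≤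
      A * ρ ^ 2 * (∑ k, |vec φ d f f' k| ^ 3 + 1) / (n : ℝ) ^ 3

/-- **DRIFT.** The mean increment of each of the three sums `X_k` is `X_k / (2 n)`, up to
`A (ρ (|S| + |S'| + |O|) + 1) / n`; the weights are nonnegative.
Proof: `m/(m + ρ φ_j (κ + S)) = 1 + O(ρ (|κ| + |S|)/m)`. If these two factors are replaced by `1`, then the `some`-part is
exactly `(1 + ρ) S / m`, `(1 + ρ) S' / m`, `(1 + ρ^2) O / m` (sum over `j`, `j'` first, with `∑ π = 1`, `∑ π φ = 0`,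
`∑ π φ^2 = 1`), and the `none`-part is `O(1/m)`. `|S|, |S'| ≤ 2 n Φ`, `|O| ≤ 2 n Φ^2`. -/
def S_DRIFT : Prop := ∀ Φ : ℝ, 1 ≤ Φ → ∃ ρ₀ A : ℝ, 0 < ρ₀ ∧ 1 ≤ A ∧
  ∀ (π φ : Fin 2 → ℝ) (κ : ℝ), Lab π φ κ Φ → ∀ ρ : ℝ, 0 < ρ → ρ ≤ ρ₀ → ∀ n : ℕ, 1 ≤ n →
  ∀ (I : Type) [Fintype I] (d : I → ℝ) (f f' : I → Fin 2), (∀ v, 0 ≤ d v) → ∑ v, d v = 2 * n →
    (∀ j j' x, 0 ≤ wtt π φ κ ρ (2 * n + 1 + ρ) (vec φ d f f' 0) (vec φ d f f' 1) d f f' j j' x) ∧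
    ∀ k, |∑ j, ∑ j', ∑ x, wtt π φ κ ρ (2 * n + 1 + ρ) (vec φ d f f' 0) (vec φ d f f' 1) d f f' j j' x *
        inc φ f f' j j' x k - vec φ d f f' k / (2 * n)| ≤
      A * (ρ * ∑ k', |vec φ d f f' k'| + 1) / n

/-- **COMB.** The exponential inequality from mass and drift.
Proof: `|X + Δ|^3 ≤ |X|^3 + 3 X |X| Δ + 3 |X| Δ^2 + |Δ|^3` for all reals. So the exponent on the left minus
`ρ ∑ |X_k|^3 / n^2` is at most `Y_i = ρ ∑_k (- |X_k|^3 (2n+1)/(n^2 (n+1)^2) + (3 X_k |X_k| Δ_k + 3 |X_k| b^2 + b^3)/(n+1)^2)`,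
`|Y_i| ≤ C ρ ≤ 1`, `exp Y ≤ 1 + Y + Y^2`. The mean of `Y`: the main terms
`- |X|^3 (2n+1)/(n^2 (n+1)^2) + 3 |X|^3/(2 n (n+1)^2) ≤ - |X|^3/(8 n^3)`; all the errors are
`≤ C ρ^2 ∑ |X|^3/n^3 + C ρ ∑ (X^2/n^3 + |X|/n^2 + 1/n^2)` (also `Y^2` and the error of the mass), and
`|X|/n^2 ≤ ε |X|^3/n^3 + C_ε/(n √n)`, `X^2/n^3 ≤ ε |X|^3/n^3 + C_ε / n^3` (Young). So for small `ρ` the sum is
`≤ 1 + C ρ/(n √n)`. -/
def S_COMB : Prop := ∀ b A : ℝ, 1 ≤ b → 1 ≤ A → ∃ ρ₀ C : ℝ, 0 < ρ₀ ∧ 0 ≤ C ∧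
  ∀ ρ : ℝ, 0 < ρ → ρ ≤ ρ₀ → ∀ n : ℕ, 1 ≤ n →
  ∀ (ι : Type) [Fintype ι] (w : ι → ℝ) (X : Fin 3 → ℝ) (Δ : ι → Fin 3 → ℝ),
    (∀ i, 0 ≤ w i) → (∀ k, |X k| ≤ b * n) → (∀ i k, |Δ i k| ≤ b) →
    |∑ i, w i - 1| ≤ A * ρ ^ 2 * (∑ k, |X k| ^ 3 + 1) / (n : ℝ) ^ 3 →
    (∀ k, |∑ i, w i * Δ i k - X k / (2 * n)| ≤ A * (ρ * ∑ k', |X k'| + 1) / n) →
    ∑ i, w i * Real.exp (ρ * (∑ k, |X k + Δ i k| ^ 3) / ((n : ℝ) + 1) ^ 2) ≤
      Real.exp (ρ * (∑ k, |X k| ^ 3) / (n : ℝ) ^ 2 + C * ρ / ((n : ℝ) * √n))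

/-! ## Part I: identifiability -/

/-- the drift of the proportion of the first label -/
noncomputable def FF (p q a b c y : ℝ) : ℝ :=
  p + y * (p * a / (a * y + b * (1 - y)) + q * b / (b * y + c * (1 - y))) - 2 * y

/-- **FX.** The drift has a zero in `(0, 1)`, and every zero is attracting, with a linear rate on the whole interval.
Proof: `FF 0 = p > 0`, `FF 1 = - q < 0`, intermediate values. `FF y = y (1 - y) H y` with
`H y = p/y - q/(1-y) + p (a - b)/(a y + b (1-y)) + q (b - c)/(b y + c (1-y))`, and `H` is strictly decreasing: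
`H y - H x = (x - y) (p/(x y) + q/((1-x)(1-y)) + p (a-b)^2/(..)(..) + q (b-c)^2/(..)(..))`. If `H x = 0`, `0 < x < 1` then
for `0 < y < 1`: `(y - x) FF y ≤ - y (1-y) (y-x)^2 (p/(x y) + q/((1-x)(1-y))) = - (y-x)^2 (p (1-y)/x + q y/(1-x))` and the
bracket is at least `min (p/x) (q/(1-x))`; `y = 0, 1` directly (or by continuity). A zero in `[0,1]` is in `(0,1)`. -/
def S_FX : Prop := ∀ p q a b c : ℝ, 0 < p → 0 < q → p + q = 1 → 0 < a → 0 < b → 0 < c →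
  (∃ x, 0 < x ∧ x < 1 ∧ FF p q a b c x = 0) ∧
  ∀ x, 0 ≤ x → x ≤ 1 → FF p q a b c x = 0 → 0 < x ∧ x < 1 ∧
    ∃ c₀ : ℝ, 0 < c₀ ∧ ∀ y, 0 ≤ y → y ≤ 1 → (y - x) * FF p q a b c y ≤ - c₀ * (y - x) ^ 2

/-- the summed degree of the nodes with label `0` -/
noncomputable def NN {n : ℕ} (h : Hist n) (l : Fin n → Fin 2) : ℝ :=
  ∑ v : Fin n, if l v = 0 then (deg h n v : ℝ) else 0

/-- `h_l = ∑_j γ_lj x_j` -/
noncomputable def hh (θ : Param 2) (x : Fin 2 → ℝ) (l : Fin 2) : ℝ := ∑ j, θ.ga l j * x j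

/-- `a_k = ∑_l π_l γ_lk / (2 h_l)` -/
noncomputable def aa (θ : Param 2) (x : Fin 2 → ℝ) (k : Fin 2) : ℝ := ∑ l, θ.pr l * θ.ga l k / (2 * hh θ x l)

/-- `x` is the limit of the proportions of the degrees: the equations, and convergence in mean square -/
structure Good (θ : Param 2) (x : Fin 2 → ℝ) : Prop where
  nn : ∀ k, 0 ≤ x k
  sum : ∑ k, x k = 1
  eqs : ∀ k, 2 * x k * (1 - aa θ x k) = θ.pr k
  lln : Tendsto (fun n : ℕ => Ex θ n fun h l => (NN h l / (2 * n) - x 0) ^ 2) atTop (𝓝 0)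

/-- **SNOC.** The recursion for the expectations; the weights of a step have sum one; degrees.
Proof: `Fin.snoc` bijections for `h` and `l`, the factors of the product do not change. -/
def S_SNOC : Prop :=
  (∀ {K : ℕ} (θ : Param K) (n : ℕ) (F : Hist (n + 1) → (Fin (n + 1) → Fin K) → ℝ),
    Ex θ (n + 1) F = Ex θ n fun h l => ∑ j, ∑ v : Fin (n + 1), θ.pr j * tr θ h l j v * F (hsn h v) (lsn l j)) ∧
  (∀ {K n : ℕ} (θ : Param K) (h : Hist n) (l : Fin n → Fin K) (j : Fin K), 0 < dn θ h l j ∧ ∑ v, tr θ h l j v = 1) ∧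
  (∀ {K n : ℕ} (θ : Param K) (h : Hist n) (l : Fin n → Fin K) (v : Fin (n + 1)) (j : Fin K),
    joint θ (hsn h v) (lsn l j) = joint θ h l * (θ.pr j * tr θ h l j v)) ∧
  (∀ {n : ℕ} (h : Hist n) (v : Fin (n + 1)) (u : ℕ), u ≤ n →
    deg (hsn h v) (n + 1) u = deg h n u + (if u = v.val then 1 else 0) + (if u = n then 1 else 0)) ∧
  (∀ {n : ℕ} (h : Hist n), ∑ u : Fin n, deg h n u = 2 * n) ∧
  ∀ {n : ℕ} (h : Hist n), deg h n n = 0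

/-- **LLN** (from `S_SNOC`, `S_FX`). Convergence in mean square to any solution of the equations.
Proof: `FF (π 0) (π 1) γ00 γ01 γ11 (x 0) = 0` is the first equation. By `S_SNOC` the pair (`N`, `n`) moves by
`Δ ∈ {0,1,2}` with `E Δ = π_0 + ∑_j π_j (γ_j0 N + γ_jj [j = 0])/(γ_jj + γ_j0 N + γ_j1 (2n - N))`, which is
`FF (X) + 2 X + O(1/n)` for `X = N/(2n)`. So `u_n = E (X - x)^2` satisfies `u_(n+1) ≤ (1 - c₀/(n+1)) u_n + C/(n+1)^2` for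
large `n`, hence `u_n → 0`. -/
def S_LLN : Prop := ∀ (θ : Param 2) (x : Fin 2 → ℝ), (∀ k, 0 < θ.pr k) → (∀ k, 0 ≤ x k) → ∑ k, x k = 1 →
  (∀ k, 2 * x k * (1 - aa θ x k) = θ.pr k) → Good θ x

/-- **EXIST** (from `S_FX`, `S_LLN`). -/
def S_EXIST : Prop := ∀ θ : Param 2, (∀ k, 0 < θ.pr k) → ∃ x, Good θ x

/-- the probability that the node `n` has a loop -/
noncomputable def loopP (θ : Param 2) (n : ℕ) : ℝ :=
  ∑ h : Hist (n + 1), if (h (Fin.last n)).val = n then law θ h else 0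

/-- the probability that the node `n + 1` links to the node `n` -/
noncomputable def leafP (θ : Param 2) (n : ℕ) : ℝ :=
  ∑ h : Hist (n + 2), if (h (Fin.last (n + 1))).val = n then law θ h else 0

/-- **LOOP** (from `S_SNOC`). `n P(loop at n) → ∑_l π_l γ_ll / (2 h_l)`.
Proof: `P(loop at n) = E ∑_j π_j γ_jj/(γ_jj + γ_j0 N + γ_j1 (2n - N))`. -/
def S_LOOP : Prop := ∀ (θ : Param 2) (x : Fin 2 → ℝ), Good θ x →
  Tendsto (fun n : ℕ => (n : ℝ) * loopP θ n) atTop (𝓝 (∑ l, θ.pr l * θ.ga l l / (2 * hh θ x l)))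

/-- **LEAF** (from `S_SNOC`). `n P(n + 1 → n) → ∑_k π_k a_k`.
Proof: two steps of `S_SNOC`. The label of the node `n` is independent of the past. If the node `n` is not a loop (the
loops have probability `O(1/n)`) its degree is `1` and the conditional probability of `n + 1 → n` is
`∑_l π_l γ_lk/(γ_ll + γ_l0 N' + γ_l1 (2n + 2 - N'))`, `|N' - N| ≤ 2`, `k` the label of the node `n`. -/
def S_LEAF : Prop := ∀ (θ : Param 2) (x : Fin 2 → ℝ), Good θ x →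
  Tendsto (fun n : ℕ => (n : ℝ) * leafP θ n) atTop (𝓝 (∑ k, θ.pr k * aa θ x k))

/-- **DEG** (from `S_SNOC`). One label of probability zero: `n P(loop at n) → 1/2`.
Proof: only the constant labelling `l = 1 - k` has positive probability, `P(loop at n) = 1/(2n+1)`. -/
def S_DEG : Prop := ∀ (θ : Param 2) (k : Fin 2), θ.pr k = 0 →
  Tendsto (fun n : ℕ => (n : ℝ) * loopP θ n) atTop (𝓝 (1 / 2))

/-- **TWO.** The probability of a loop at the second node, and injectivity.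
Proof: for `γ00 = r (1 + ρ q/p)`, `γ01 = r (1 - ρ)`, `γ11 = r (1 + ρ p/q)`, `q = 1 - p`, the value is
`1/3 + (2 ρ (3 - ρ)/3) y/(9 (1-ρ)^2 y + 3 ρ - 2 ρ^2)` with `y = p q`, a strictly increasing function of `y`. -/
def S_TWO : Prop :=
  (∀ θ : Param 2, loopP θ 1 = ∑ j, ∑ l, θ.pr j * θ.pr l * (θ.ga j j / (θ.ga j j + 2 * θ.ga j l))) ∧
  ∀ (θ θ' : Param 2) (p p' r r' ρ : ℝ), 0 < ρ → ρ < 1 → 0 < r → 0 < r' → 0 < p → p < 1 → 0 < p' → p' < 1 →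
    θ.pr 0 = p → θ'.pr 0 = p' →
    θ.ga 0 0 = r * (1 + ρ * ((1 - p) / p)) → θ.ga 0 1 = r * (1 - ρ) → θ.ga 1 1 = r * (1 + ρ * (p / (1 - p))) →
    θ'.ga 0 0 = r' * (1 + ρ * ((1 - p') / p')) → θ'.ga 0 1 = r' * (1 - ρ) → θ'.ga 1 1 = r' * (1 + ρ * (p' / (1 - p'))) →
    loopP θ 1 = loopP θ' 1 → p' = p ∨ p' = 1 - p

/-- **ALG.** The limits determine `ρ` and force a balanced parameter.
Proof: `∑_k x_k a_k = 1/2` (exchange the sums), `π_k = 2 x_k (1 - a_k)`, so `1/2 = ∑ π_k a_k = 1 - 2 ∑ x_k a_k^2`,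
`∑ x_k (a_k - 1/2)^2 = 0`. As `π_k > 0` also `x_k > 0`, so `a_k = 1/2`, `x_k = π_k`, `h_l = ∑_j γ_lj π_j`. From
`∑_l π_l γ_lk / h_l = 1` for all `k`: `∑_(k,l) π_k γ_kl π_l (1/h_k - 1/h_l)^2 = 0`, so `h_0 = h_1 = r`. Then
`γ00 p + γ01 q = r = γ01 p + γ11 q` and the last equation gives `γ01 = r (1 - ρ)`. -/
def S_ALG : Prop := ∀ (θ : Param 2) (x : Fin 2 → ℝ) (ρ : ℝ), (∀ k, 0 < θ.pr k) → (∀ k, 0 ≤ x k) → ∑ k, x k = 1 →
  (∀ k, 2 * x k * (1 - aa θ x k) = θ.pr k) → ∑ k, θ.pr k * aa θ x k = 1 / 2 →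
  ∑ l, θ.pr l * θ.ga l l / (2 * hh θ x l) = (1 + ρ) / 2 →
  ∃ r : ℝ, 0 < r ∧ θ.ga 0 0 = r * (1 + ρ * ((1 - θ.pr 0) / θ.pr 0)) ∧ θ.ga 0 1 = r * (1 - ρ) ∧
    θ.ga 1 1 = r * (1 + ρ * (θ.pr 0 / (1 - θ.pr 0)))

end Pool.Agent.L7h7.HP
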