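import Pool.Agent.L7h7.HP.Stm

/-!
# Project HP (MP_7e57c2_pr): the balanced parameters, the second moment, the final theorem
-/

set_option autoImplicit false

open Finset Filter Topology

namespace Pool.Agent.L7h7.HP

/-- the function of the label -/
noncomputable def ph (p : ℝ) : Fin 2 → ℝ := ![√((1 - p) / p), -√(p / (1 - p))]

/-- `θ` is the balanced parameter `(p, ρ)` -/
structure IsBal (θ : Param 2) (p ρ : ℝ) : Prop where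
  hp : 0 < p
  hp' : p < 1
  hr : 0 < ρ
  hr' : ρ < 1
  pr0 : θ.pr 0 = p
  g00 : θ.ga 0 0 = 1 + ρ * ((1 - p) / p)
  g01 : θ.ga 0 1 = 1 - ρ
  g11 : θ.ga 1 1 = 1 + ρ * (p / (1 - p))

/-- **LABB.** The balanced parameters have the form of the structure `Lab`, `γ i j = 1 + ρ φ_i φ_j`. -/
def S_LABB : Prop := ∀ ε : ℝ, 0 < ε → ε ≤ 1 / 2 → ∃ Φ : ℝ, 1 ≤ Φ ∧ ∀ (θ : Param 2) (p ρ : ℝ), IsBal θ p ρ → ε ≤ p →
  p ≤ 1 / 2 → Lab θ.pr (ph p) (ph p 0 + ph p 1) Φ ∧ ∀ i j, θ.ga i j = 1 + ρ * ph p i * ph p j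

/-- the law with one label and loops of weight `1 + ρ` -/
noncomputable def refq (ρ : ℝ) {n : ℕ} (h : Hist n) : ℝ :=
  ∏ k : Fin n, (if (h k).val = k.val then 1 + ρ else (deg h k.val (h k).val : ℝ)) / (2 * (k.val : ℝ) + 1 + ρ)

/-- the three sums of a history with two labellings -/
noncomputable def XX (φ : Fin 2 → ℝ) {n : ℕ} (h : Hist n) (l l' : Fin n → Fin 2) : Fin 3 → ℝ :=
  vec φ (fun v : Fin n => (deg h n v.val : ℝ)) l l'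

/-- the weighted sum over a history and two labellings -/
noncomputable def WW (θ : Param 2) (ρ : ℝ) (φ : Fin 2 → ℝ) (n : ℕ) (G : (Fin 3 → ℝ) → ℝ) : ℝ :=
  ∑ h : Hist n, ∑ l : Fin n → Fin 2, ∑ l' : Fin n → Fin 2, joint θ h l * joint θ h l' / refq ρ h * G (XX φ h l l')

/-- **REC** (from `S_SNOC`). One step of the weighted sum.
Proof: `tr θ h l j v * tr θ h l' j' v / ((deg or 1+ρ)/(2n+1+ρ))` is the weight `wtt` without `π π'`, because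
`dn θ h l j = (2n+1+ρ) + ρ φ_j (κ + S)` (use `φ_j^2 = 1 + κ φ_j`, `∑ deg = 2n`) and `γ_(j l(v)) = 1 + ρ φ_j φ_(l(v))`. -/
def S_REC : Prop := ∀ (θ : Param 2) (ρ κ Φ : ℝ) (φ : Fin 2 → ℝ), 0 < ρ → Lab θ.pr φ κ Φ →
  (∀ i j, θ.ga i j = 1 + ρ * φ i * φ j) → ∀ (n : ℕ) (G : (Fin 3 → ℝ) → ℝ),
  WW θ ρ φ (n + 1) G = ∑ h : Hist n, ∑ l : Fin n → Fin 2, ∑ l' : Fin n → Fin 2,
    joint θ h l * joint θ h l' / refq ρ h *
      ∑ j, ∑ j', ∑ x : Option (Fin n), wtt θ.pr φ κ ρ (2 * n + 1 + ρ) (XX φ h l l' 0) (XX φ h l l' 1)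
        (fun v : Fin n => (deg h n v.val : ℝ)) l l' j j' x * G (fun k => XX φ h l l' k + inc φ l l' j j' x k)

/-- **REFQ.** The reference law is a probability. Proof: as in `S_SNOC`. -/
def S_REFQ : Prop := ∀ (ρ : ℝ), 0 < ρ → ∀ n : ℕ, (∀ h : Hist n, 0 < refq ρ h) ∧ ∑ h : Hist n, refq ρ h = 1

/-- **SM** (from `S_MASS`, `S_DRIFT`, `S_COMB`, `S_REC`, `S_SNOC`). The second moment. -/
def S_SM : Prop := ∀ Φ : ℝ, 1 ≤ Φ → ∃ ρ₀ C : ℝ, 0 < ρ₀ ∧ 0 ≤ C ∧ ∀ (θ : Param 2) (ρ κ : ℝ) (φ : Fin 2 → ℝ), 0 < ρ →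
  ρ ≤ ρ₀ → Lab θ.pr φ κ Φ → (∀ i j, θ.ga i j = 1 + ρ * φ i * φ j) → ∀ n : ℕ,
  ∑ h : Hist n, law θ h ^ 2 / refq ρ h ≤ Real.exp (C * ρ)

/-- **TV** (from `S_SM`, `S_LABB`, `S_REFQ`, `S_SNOC`). The laws are close in total variation, uniformly in `n`. -/
def S_TV : Prop := ∀ ε : ℝ, 0 < ε → ε ≤ 1 / 2 → ∃ ρ₀ : ℝ, 0 < ρ₀ ∧ ρ₀ < 1 ∧
  ∀ (θ θ' : Param 2) (p p' ρ : ℝ), IsBal θ p ρ → IsBal θ' p' ρ → ρ ≤ ρ₀ → ε ≤ p → p ≤ 1 / 2 → ε ≤ p' → p' ≤ 1 / 2 →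
  ∀ n : ℕ, ∑ h : Hist n, |law θ h - law θ' h| ≤ 1 / 2

/-- The parameters with positive label probabilities which are determined by the law of the history, up to relabelling
and scaling of the affinities. -/
def Identifiable {K : ℕ} (θ : Param K) : Prop :=
  (∀ j, 0 < θ.pr j) ∧ ∀ θ' : Param K, (∀ (n : ℕ) (h : Hist n), law θ' h = law θ h) →
    ∃ (σ : Equiv.Perm (Fin K)) (c : ℝ), 0 < c ∧ (∀ j, θ'.pr j = θ.pr (σ j)) ∧ ∀ i j, θ'.ga i j = c * θ.ga (σ i) (σ j)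

/-- **ID** (from all the statements of part I). -/
def S_ID : Prop := ∀ (θ : Param 2) (p ρ : ℝ), IsBal θ p ρ → Identifiable θ

/-- `τ` is within `δ` of the orbit of `θ` under relabelling and scaling -/
def Near {K : ℕ} (δ : ℝ) (τ θ : Param K) : Prop :=
  ∃ (σ : Equiv.Perm (Fin K)) (c : ℝ), 0 < c ∧ (∀ j, |τ.pr (σ j) - θ.pr j| ≤ δ) ∧
    ∀ i j, |c * τ.ga (σ i) (σ j) - θ.ga i j| ≤ δ

open Classical in
/-- The estimator `T` is consistent at `θ`: for data from `θ` it converges in probability to `θ` modulo relabelling and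
scaling. -/
def Consistent {K : ℕ} (T : ∀ n : ℕ, Hist n → Param K) (θ : Param K) : Prop :=
  ∀ δ : ℝ, 0 < δ → Tendsto (fun n : ℕ => ∑ h : Hist n, if Near δ (T n h) θ then 0 else law θ h) atTop (𝓝 0)

/-- **NC** (from `S_TV`). -/
def S_NC : Prop := ∀ ε : ℝ, 0 < ε → ε ≤ 1 / 2 → ∃ ρ₀ : ℝ, 0 < ρ₀ ∧ ρ₀ < 1 ∧
  ∀ (θ θ' : Param 2) (p p' ρ : ℝ), IsBal θ p ρ → IsBal θ' p' ρ → ρ ≤ ρ₀ → ε ≤ p → p ≤ 1 / 2 → ε ≤ p' → p' ≤ 1 / 2 →
  p ≠ p' → ∀ T : ∀ n : ℕ, Hist n → Param 2, ¬ (Consistent T θ ∧ Consistent T θ')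

/-- **FACT.** The product of the degrees: the likelihood of the problem. Proof: induction with `S_SNOC`: adding a node
multiplies the left side by the degree of its target (by `1` for a loop, whose node then has degree `2`). -/
def S_FACT : Prop := ∀ {n : ℕ} (h : Hist n),
  ∏ v : Fin n, ((deg h n v.val - 1).factorial : ℝ) =
    ∏ k : Fin n, (if (h k).val = k.val then (1 : ℝ) else (deg h k.val (h k).val : ℝ))

end Pool.Agent.L7h7.HP
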