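import Pool.Agent.L7h7.HP.Snoc

set_option autoImplicit false

open Finset Filter Topology

namespace Pool.Agent.L7h7.HP

theorem tr_nonneg {K n : ℕ} (θ : Param K) (h : Hist n) (l : Fin n → Fin K) (j : Fin K) (v : Fin (n + 1)) :
    0 ≤ tr θ h l j v := by
  unfold tr
  refine div_nonneg ?_ (dn_pos θ h l j).le
  split_ifs
  · exact mul_nonneg (θ.ga_pos _ _).le (Nat.cast_nonneg _)
  · exact (θ.ga_pos _ _).le

theorem link_nonneg {K n : ℕ} (θ : Param K) (h : Hist n) (l : Fin n → Fin K) (k : Fin n) : 0 ≤ link θ h l k := by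
  unfold link
  refine div_nonneg ?_ ?_
  · split_ifs
    · exact (θ.ga_pos _ _).le
    · exact mul_nonneg (θ.ga_pos _ _).le (Nat.cast_nonneg _)
  · unfold den
    exact add_nonneg (θ.ga_pos _ _).le (sum_nonneg fun v _ => mul_nonneg (θ.ga_pos _ _).le (Nat.cast_nonneg _))

theorem joint_nonneg {K n : ℕ} (θ : Param K) (h : Hist n) (l : Fin n → Fin K) : 0 ≤ joint θ h l :=
  prod_nonneg fun k _ => mul_nonneg (θ.pr_nonneg _) (link_nonneg θ h l k)

theorem law_nonneg {K n : ℕ} (θ : Param K) (h : Hist n) : 0 ≤ law θ h :=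
  sum_nonneg fun l _ => joint_nonneg θ h l

theorem Ex_one {K : ℕ} (θ : Param K) (n : ℕ) : Ex θ n (fun _ _ => 1) = 1 := by
  induction n with
  | zero => simp [Ex, joint]
  | succ n ih =>
    rw [Ex_succ]
    have : (fun (h : Hist n) (l : Fin n → Fin K) => ∑ j, ∑ v : Fin (n + 1), θ.pr j * tr θ h l j v * (1 : ℝ)) =
        fun _ _ => 1 := by
      funext h l
      simp only [mul_one]
      rw [← θ.pr_sum]
      refine sum_congr rfl fun j _ => ?_
      rw [← mul_sum, tr_sum, mul_one]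
    rw [this, ih]

theorem law_sum {K : ℕ} (θ : Param K) (n : ℕ) : ∑ h : Hist n, law θ h = 1 := by
  have := Ex_one θ n
  unfold Ex at this
  simpa [law] using this

/-- total variation from the second moment -/
theorem tv_of_sm {n : ℕ} (P Q : Hist n → ℝ) (hQ : ∀ h, 0 < Q h) (sP : ∑ h, P h = 1) (sQ : ∑ h, Q h = 1) (B : ℝ)
    (h2 : ∑ h, P h ^ 2 / Q h ≤ B) : (∑ h, |P h - Q h|) ^ 2 ≤ B - 1 := by
  have h1 : (∑ h, |P h - Q h|) ^ 2 ≤ (∑ h, Q h) * ∑ h, (P h - Q h) ^ 2 / Q h := by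
    refine Finset.sum_sq_le_sum_mul_sum_of_sq_eq_mul _ (fun h _ => (hQ h).le)
      (fun h _ => div_nonneg (sq_nonneg _) (hQ h).le) fun h _ => ?_
    rw [sq_abs, mul_div_cancel₀ _ (hQ h).ne']
  rw [sQ, one_mul] at h1
  have h3 : ∑ h, (P h - Q h) ^ 2 / Q h = ∑ h, P h ^ 2 / Q h - 1 := by
    have : ∀ h, (P h - Q h) ^ 2 / Q h = P h ^ 2 / Q h - 2 * P h + Q h := by
      intro h
      have := (hQ h).ne'
      field_simp
      ring
    simp only [this, sum_add_distrib, sum_sub_distrib, ← mul_sum, sP, sQ]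
    ring
  linarith

theorem s_TV (hSM : S_SM) (hLB : S_LABB) (hRQ : S_REFQ) : S_TV := by
  intro ε hε hε'
  obtain ⟨Φ, hΦ, hLab⟩ := hLB ε hε hε'
  obtain ⟨ρ₁, C, hρ₁, hC, hs⟩ := hSM Φ hΦ
  have hC1 : 0 < C + 1 := by linarith
  refine ⟨min ρ₁ (min (1 / 2) (1 / (32 * (C + 1)))), lt_min hρ₁ (lt_min (by norm_num) (by positivity)), ?_, ?_⟩
  · exact lt_of_le_of_lt ((min_le_right _ _).trans (min_le_left _ _)) (by norm_num)
  intro θ θ' p p' ρ hb hb' hρ hp hp2 hq hq2 n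
  have r1 : ρ ≤ ρ₁ := hρ.trans (min_le_left _ _)
  have r2 : ρ ≤ 1 / (32 * (C + 1)) := (hρ.trans (min_le_right _ _)).trans (min_le_right _ _)
  have hr := hb.hr
  have key : ∀ (τ : Param 2) (s : ℝ), IsBal τ s ρ → ε ≤ s → s ≤ 1 / 2 →
      ∑ h : Hist n, |law τ h - refq ρ h| ≤ 1 / 4 := by
    intro τ s hτ h1 h2
    obtain ⟨hl, hg⟩ := hLab τ s ρ hτ h1 h2
    have h3 := hs τ ρ _ _ hr r1 hl hg n
    have h4 := tv_of_sm (law τ) (refq ρ) (hRQ ρ hr n).1 (law_sum τ n) (hRQ ρ hr n).2 _ h3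
    have h5 : C * ρ ≤ 1 / 32 := by
      calc C * ρ ≤ (C + 1) * ρ := by nlinarith
        _ ≤ (C + 1) * (1 / (32 * (C + 1))) := mul_le_mul_of_nonneg_left r2 hC1.le
        _ = 1 / 32 := by field_simp
    have h6 : 0 ≤ C * ρ := mul_nonneg hC hr.le
    have h7 := Real.abs_exp_sub_one_sub_id_le (x := C * ρ) (by rw [abs_of_nonneg h6]; linarith)
    have h8 := (abs_le.1 h7).2
    have h9 : Real.exp (C * ρ) - 1 ≤ 1 / 16 := by nlinarith
    have h10 : 0 ≤ ∑ h : Hist n, |law τ h - refq ρ h| := sum_nonneg fun _ _ => abs_nonneg _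
    nlinarith
  have k1 := key θ p hb hp hp2
  have k2 := key θ' p' hb' hq hq2
  calc ∑ h : Hist n, |law θ h - law θ' h| ≤ ∑ h : Hist n, (|law θ h - refq ρ h| + |law θ' h - refq ρ h|) := by
        refine sum_le_sum fun h _ => ?_
        have : law θ h - law θ' h = (law θ h - refq ρ h) - (law θ' h - refq ρ h) := by ring
        rw [this]
        exact abs_sub _ _
    _ ≤ 1 / 2 := by
        rw [sum_add_distrib]
        linarith

theorem near_prod {δ : ℝ} (hδ : 0 ≤ δ) {τ θ : Param 2} (h : Near δ τ θ) :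
    |τ.pr 0 * τ.pr 1 - θ.pr 0 * θ.pr 1| ≤ 2 * δ := by
  obtain ⟨σ, c, -, h1, -⟩ := h
  have hs := τ.pr_sum
  have hs' := θ.pr_sum
  have n0 := τ.pr_nonneg 0
  have n1 := τ.pr_nonneg 1
  have m0 := θ.pr_nonneg 0
  have m1 := θ.pr_nonneg 1
  rw [Fin.sum_univ_two] at hs hs'
  have key : ∀ a b c d : ℝ, 0 ≤ a → a ≤ 1 → 0 ≤ b → b ≤ 1 → 0 ≤ c → c ≤ 1 → 0 ≤ d → d ≤ 1 → |a - c| ≤ δ →
      |b - d| ≤ δ → |a * b - c * d| ≤ 2 * δ := by
    intro a b c d ha ha' hb hb' hc hc' hd hd' h1 h2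
    rw [abs_le] at *
    constructor <;> nlinarith
  have e : τ.pr 0 * τ.pr 1 = τ.pr (σ 0) * τ.pr (σ 1) := by
    have h2 : σ 0 ≠ σ 1 := fun h => absurd (σ.injective h) (by decide)
    have h3 : (σ 0 = 0 ∧ σ 1 = 1) ∨ (σ 0 = 1 ∧ σ 1 = 0) := by
      revert h2
      generalize σ 0 = x
      generalize σ 1 = y
      revert x y
      decide
    rcases h3 with ⟨a, b⟩ | ⟨a, b⟩
    · rw [a, b]
    · rw [a, b, mul_comm]
  rw [e]
  have hn : ∀ j, 0 ≤ τ.pr j ∧ τ.pr j ≤ 1 := by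
    intro j
    fin_cases j
    · exact ⟨n0, by show τ.pr 0 ≤ 1; linarith⟩
    · exact ⟨n1, by show τ.pr 1 ≤ 1; linarith⟩
  exact key _ _ _ _ (hn _).1 (hn _).2 (hn _).1 (hn _).2 m0 (by linarith) m1 (by linarith) (h1 0) (h1 1)

theorem s_NC (hTV : S_TV) : S_NC := by
  classical
  intro ε hε hε'
  obtain ⟨ρ₀, h1, h2, h3⟩ := hTV ε hε hε'
  refine ⟨ρ₀, h1, h2, ?_⟩
  intro θ θ' p p' ρ hb hb' hρ hp hp2 hq hq2 hne T hcon
  obtain ⟨c1, c2⟩ := hcon
  have tv := h3 θ θ' p p' ρ hb hb' hρ hp hp2 hq hq2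
  have e1 : θ.pr 0 * θ.pr 1 = p * (1 - p) := by
    have := θ.pr_sum
    rw [Fin.sum_univ_two, hb.pr0] at this
    rw [hb.pr0]
    congr 1
    linarith
  have e2 : θ'.pr 0 * θ'.pr 1 = p' * (1 - p') := by
    have := θ'.pr_sum
    rw [Fin.sum_univ_two, hb'.pr0] at this
    rw [hb'.pr0]
    congr 1
    linarith
  have hD : p * (1 - p) - p' * (1 - p') ≠ 0 := by
    have : p * (1 - p) - p' * (1 - p') = (p - p') * (1 - p - p') := by ring
    rw [this]
    refine mul_ne_zero (sub_ne_zero.2 hne) ?_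
    rcases lt_or_gt_of_ne hne with h | h
    · have : 0 < 1 - p - p' := by linarith
      exact this.ne'
    · have : 0 < 1 - p - p' := by linarith
      exact this.ne'
  set D := |p * (1 - p) - p' * (1 - p')| with hDd
  have hDp : 0 < D := abs_pos.2 hD
  have hδ : 0 < D / 5 := by positivity
  have hdis : ∀ τ : Param 2, Near (D / 5) τ θ → ¬ Near (D / 5) τ θ' := by
    intro τ g1 g2
    have a1 := near_prod hδ.le g1
    have a2 := near_prod hδ.le g2
    rw [e1] at a1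
    rw [e2] at a2
    have : D ≤ 2 * (D / 5) + 2 * (D / 5) := by
      rw [hDd]
      have : p * (1 - p) - p' * (1 - p') = (τ.pr 0 * τ.pr 1 - p' * (1 - p')) - (τ.pr 0 * τ.pr 1 - p * (1 - p)) := by
        ring
      calc |p * (1 - p) - p' * (1 - p')| = |(τ.pr 0 * τ.pr 1 - p' * (1 - p')) - (τ.pr 0 * τ.pr 1 - p * (1 - p))| := by
            rw [← this]
        _ ≤ |τ.pr 0 * τ.pr 1 - p' * (1 - p')| + |τ.pr 0 * τ.pr 1 - p * (1 - p)| := abs_sub _ _
        _ ≤ _ := add_le_add a2 a1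
    linarith
  have hlim := (c1 (D / 5) hδ).add (c2 (D / 5) hδ)
  rw [add_zero] at hlim
  have hge : ∀ n : ℕ, (1 / 2 : ℝ) ≤ (∑ h : Hist n, if Near (D / 5) (T n h) θ then 0 else law θ h) +
      ∑ h : Hist n, if Near (D / 5) (T n h) θ' then 0 else law θ' h := by
    intro n
    have h4 := law_sum θ n
    have h5 : ∀ h : Hist n, law θ h ≤ (if Near (D / 5) (T n h) θ then 0 else law θ h) +
        (if Near (D / 5) (T n h) θ' then 0 else law θ' h) + |law θ h - law θ' h| := by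
      intro h
      have p1 := law_nonneg θ h
      have p2 := law_nonneg θ' h
      have p3 := le_abs_self (law θ h - law θ' h)
      have p4 := abs_nonneg (law θ h - law θ' h)
      by_cases h6 : Near (D / 5) (T n h) θ
      · rw [if_pos h6, if_neg (hdis _ h6)]
        linarith
      · rw [if_neg h6]
        split_ifs <;> linarith
    have h6 := sum_le_sum fun h (_ : h ∈ (univ : Finset (Hist n))) => h5 h
    rw [sum_add_distrib, sum_add_distrib, h4] at h6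
    have h7 := tv n
    linarith
  have := ge_of_tendsto hlim (Eventually.of_forall hge)
  linarith

end Pool.Agent.L7h7.HP
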